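import Mathlib

/-!
Definitions for the game of googol on `n`-element subsets of `{1, ..., N}`.
-/

namespace Pool.Agent.Lib.MP_d38296_lc

open MeasureTheory

/-- `D` is a probability distribution on the `n`-element subsets of `{1, ..., N}`. -/
def IsInstance (n N : ℕ) (D : Finset ℕ → ℝ) : Prop :=
  (∀ S, 0 ≤ D S) ∧ (∀ S, D S ≠ 0 → S ⊆ Finset.Icc 1 N ∧ S.card = n) ∧
    ∑ S ∈ (Finset.Icc 1 N).powersetCard n, D S = 1

/-- A deterministic online rule `A` is given the list of the values seen so far, in order of
arrival, and answers `true` to stop on the last of them. `Wins A l` says that on the arrival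
sequence `l` the first position `k` at which `A` answers `true` holds the maximum of `l`. -/
def Wins (A : List ℕ → Bool) (l : List ℕ) : Prop :=
  ∃ k : Fin l.length, A (l.take (k.val + 1)) = true ∧
    (∀ j, j < k.val → A (l.take (j + 1)) = false) ∧ ∀ x ∈ l, x ≤ l.get k

/-- The winning probability of the randomized algorithm `(μ, A)` (a random seed `ω` of law `μ`
selects the deterministic rule `A ω`): `S` has law `D`, the arrival sequence is a uniformly
random one of the `n !` orderings of `S`, and the seed is independent of both. -/
noncomputable def winProb {Ω : Type*} [MeasurableSpace Ω] (μ : Measure Ω)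
    (A : Ω → List ℕ → Bool) (n N : ℕ) (D : Finset ℕ → ℝ) : ℝ :=
  ∑ S ∈ (Finset.Icc 1 N).powersetCard n,
    D S * ((∑ l ∈ S.toList.permutations.toFinset, μ.real {ω | Wins (A ω) l}) / (n.factorial : ℝ))

end Pool.Agent.Lib.MP_d38296_lc
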