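import Pool.Agent.Lib.MP_d38296_lc.Defs

namespace Pool.Agent.Lib.MP_d38296_lc

open Finset

/-- lists of length `k` without repetition with entries in `{1, ..., N}` -/
def LL (N : ℕ) : ℕ → Finset (List ℕ)
  | 0 => {[]}
  | k + 1 => (LL N k).biUnion fun h => ((Icc 1 N).filter (fun a => a ∉ h)).image fun a => h ++ [a]

lemma mem_LL (N : ℕ) : ∀ (k : ℕ) (l : List ℕ),
    l ∈ LL N k ↔ l.length = k ∧ l.Nodup ∧ ∀ x ∈ l, x ∈ Icc 1 N := by
  intro k
  induction k with
  | zero =>
    intro l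
    simp only [LL, mem_singleton, List.length_eq_zero_iff]
    constructor
    · rintro rfl; simp
    · exact fun h => h.1
  | succ k ih =>
    intro l
    simp only [LL, mem_biUnion, mem_image, mem_filter]
    constructor
    · rintro ⟨h, hh, a, ⟨ha, hah⟩, rfl⟩
      rw [ih] at hh
      obtain ⟨h1, h2, h3⟩ := hh
      refine ⟨by simp [h1], ?_, ?_⟩
      · rw [List.nodup_append]
        refine ⟨h2, by simp, ?_⟩
        intro x hx y hy
        simp at hy
        rintro rfl
        exact hah (hy ▸ hx)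
      · intro x hx
        rcases List.mem_append.1 hx with hx | hx
        · exact h3 x hx
        · simp at hx; rw [hx]; exact ha
    · rintro ⟨h1, h2, h3⟩
      rcases List.eq_nil_or_concat l with rfl | ⟨h, a, rfl⟩
      · simp at h1
      · rw [List.concat_eq_append] at h1 h2 h3 ⊢
        rw [List.nodup_append] at h2
        refine ⟨h, ?_, a, ⟨h3 a (by simp), ?_⟩, rfl⟩
        · rw [ih]
          refine ⟨by simpa using h1, h2.1, fun x hx => h3 x (by simp [hx])⟩
        · intro hah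
          exact h2.2.2 a hah a (by simp) rfl

lemma sum_LL_succ (N k : ℕ) (f : List ℕ → ℝ) :
    ∑ l ∈ LL N (k + 1), f l =
      ∑ h ∈ LL N k, ∑ a ∈ (Icc 1 N).filter (fun a => a ∉ h), f (h ++ [a]) := by
  rw [LL, sum_biUnion]
  · refine sum_congr rfl fun h _ => ?_
    rw [sum_image]
    intro a _ b _ hab
    simpa using hab
  · intro h _ h' _ hne
    simp only [Function.onFun]
    rw [disjoint_left]
    intro l hl hl'
    simp only [mem_image] at hl hl'
    obtain ⟨a, _, rfl⟩ := hl
    obtain ⟨b, _, hb⟩ := hl'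
    exact hne (List.append_inj_left' hb rfl).symm

/-- maximum of a list -/
def mx (l : List ℕ) : ℕ := l.toFinset.sup id

lemma mx_append (h : List ℕ) (a : ℕ) : mx (h ++ [a]) = max (mx h) a := by
  simp [mx, List.toFinset_append, max_comm]

lemma le_mx {l : List ℕ} {x : ℕ} (hx : x ∈ l) : x ≤ mx l :=
  Finset.le_sup (f := id) (List.mem_toFinset.2 hx)

lemma mx_le {l : List ℕ} {T : ℕ} : mx l ≤ T ↔ ∀ x ∈ l, x ≤ T := by
  simp [mx, Finset.sup_le_iff]

lemma mx_mem {l : List ℕ} (hl : l ≠ []) : mx l ∈ l := by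
  have hne : l.toFinset.Nonempty := by
    rcases List.exists_mem_of_ne_nil l hl with ⟨x, hx⟩
    exact ⟨x, List.mem_toFinset.2 hx⟩
  obtain ⟨x, hx, hx'⟩ := Finset.exists_mem_eq_sup l.toFinset hne id
  rw [mx, hx']
  exact List.mem_toFinset.1 hx

/-- the number of unused values that are at most `T` -/
lemma card_unused {N k T : ℕ} {h : List ℕ} (hh : h ∈ LL N k) (hT : mx h ≤ T) :
    ((Icc 1 T).filter (fun a => a ∉ h)).card = T - k := by
  rw [mem_LL] at hh
  obtain ⟨h1, h2, h3⟩ := hh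
  have : (Icc 1 T).filter (fun a => a ∉ h) = Icc 1 T \ h.toFinset := by
    ext a; simp
  rw [this, card_sdiff_of_subset]
  · rw [List.toFinset_card_of_nodup h2, h1]; simp
  · intro x hx
    rw [List.mem_toFinset] at hx
    have := h3 x hx
    have h4 := (mx_le.1 hT) x hx
    simp only [mem_Icc] at this ⊢
    omega

lemma length_le_mx {N k : ℕ} {h : List ℕ} (hh : h ∈ LL N k) : k ≤ mx h := by
  rw [mem_LL] at hh
  obtain ⟨h1, h2, h3⟩ := hh
  have : h.toFinset ⊆ Icc 1 (mx h) := by
    intro x hx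
    rw [List.mem_toFinset] at hx
    have := h3 x hx
    have h4 := le_mx hx
    simp only [mem_Icc] at this ⊢
    omega
  have := card_le_card this
  rw [List.toFinset_card_of_nodup h2, h1] at this
  simpa using this

lemma mx_le_N {N k : ℕ} {h : List ℕ} (hh : h ∈ LL N k) : mx h ≤ N := by
  rw [mem_LL] at hh
  rw [mx_le]
  intro x hx
  exact (mem_Icc.1 (hh.2.2 x hx)).2

lemma count_le (N T : ℕ) (hT : T ≤ N) : ∀ k : ℕ,
    ∑ h ∈ LL N k, (if mx h ≤ T then (1 : ℝ) else 0) = (T.descFactorial k : ℝ) := by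
  intro k
  induction k with
  | zero => rw [LL, sum_singleton]; simp [mx]
  | succ k ih =>
    rw [sum_LL_succ, Nat.descFactorial_succ, Nat.cast_mul, ← ih, mul_sum]
    refine sum_congr rfl fun h hh => ?_
    by_cases hm : mx h ≤ T
    · simp only [hm, if_true, mul_one, mx_append, max_le_iff, true_and]
      rw [← card_unused hh hm, ← sum_filter, filter_filter, sum_const, nsmul_eq_mul, mul_one]
      congr 2
      ext a
      simp only [mem_filter, mem_Icc]
      constructor
      · rintro ⟨⟨h1, _⟩, h3, h4⟩; exact ⟨⟨h1, h4⟩, h3⟩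
      · rintro ⟨⟨h1, h4⟩, h3⟩; exact ⟨⟨h1, h4.trans hT⟩, h3, h4⟩
    · simp [hm, mx_append]

lemma sum_by_max (N k : ℕ) (hk : 1 ≤ k) (g : ℕ → ℝ) :
    ∑ h ∈ LL N k, g (mx h) =
      ∑ M ∈ Icc 1 N, ((M.descFactorial k : ℝ) - ((M - 1).descFactorial k : ℝ)) * g M := by
  have hmaps : ∀ h ∈ LL N k, mx h ∈ Icc 1 N := by
    intro h hh
    have h1 := length_le_mx hh
    have h2 := mx_le_N hh
    simp only [mem_Icc]; omega
  rw [← sum_fiberwise_of_maps_to hmaps]
  refine sum_congr rfl fun M hM => ?_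
  rw [mem_Icc] at hM
  rw [← count_le N M hM.2 k, ← count_le N (M - 1) (by omega) k, ← sum_sub_distrib, sum_mul,
    sum_filter]
  refine sum_congr rfl fun h _ => ?_
  by_cases h1 : mx h = M
  · have h2 : ¬ (M ≤ M - 1) := by omega
    simp [h1, h2]
  · by_cases h2 : mx h ≤ M
    · have h3 : mx h ≤ M - 1 := by omega
      simp [h1, h2, h3]
    · have h3 : ¬ mx h ≤ M - 1 := by omega
      simp [h1, h2, h3]

lemma sum_sets_orders (N n : ℕ) (f : List ℕ → ℝ) :
    ∑ S ∈ (Icc 1 N).powersetCard n, ∑ l ∈ S.toList.permutations.toFinset, f l =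
      ∑ l ∈ LL N n, f l := by
  have hmaps : ∀ l ∈ LL N n, l.toFinset ∈ (Icc 1 N).powersetCard n := by
    intro l hl
    rw [mem_LL] at hl
    rw [mem_powersetCard]
    refine ⟨fun x hx => hl.2.2 x (List.mem_toFinset.1 hx), ?_⟩
    rw [List.toFinset_card_of_nodup hl.2.1, hl.1]
  rw [← sum_fiberwise_of_maps_to hmaps]
  refine sum_congr rfl fun S hS => ?_
  rw [mem_powersetCard] at hS
  congr 1
  ext l
  simp only [List.mem_toFinset, List.mem_permutations, mem_filter, mem_LL]
  constructor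
  · intro hp
    have hf : l.toFinset = S := by
      rw [List.toFinset_eq_of_perm _ _ hp]; simp
    refine ⟨⟨by rw [hp.length_eq]; simpa using hS.2, hp.nodup_iff.2 S.nodup_toList, ?_⟩, hf⟩
    intro x hx
    exact hS.1 (hf ▸ List.mem_toFinset.2 hx)
  · rintro ⟨⟨_, h2, _⟩, h4⟩
    rw [List.perm_ext_iff_of_nodup h2 S.nodup_toList]
    intro a
    rw [← h4]; simp

end Pool.Agent.Lib.MP_d38296_lc
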