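import Pool.Agent.Lib.MP_d38296_lc.Potential

namespace Pool.Agent.Lib.MP_d38296_lc

open Finset

/-- the rule has not stopped on any entry of `h` -/
def NotStopped (A : List ℕ → Bool) (h : List ℕ) : Prop :=
  ∀ j, j < h.length → A (h.take (j + 1)) = false

lemma wins_not_notStopped {A : List ℕ → Bool} {h : List ℕ} (hw : Wins A h) :
    ¬ NotStopped A h := by
  obtain ⟨k, h1, _, _⟩ := hw
  intro hn
  rw [hn k k.2] at h1
  exact Bool.false_ne_true h1

lemma notStopped_append {A : List ℕ → Bool} {h : List ℕ} {a : ℕ}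
    (hn : NotStopped A (h ++ [a])) : NotStopped A h := by
  intro j hj
  have := hn j (by simp; omega)
  rwa [List.take_append_of_le_length (by omega)] at this

lemma wins_append {A : List ℕ → Bool} {h : List ℕ} {a : ℕ} (hw : Wins A (h ++ [a])) :
    (Wins A h ∧ a ≤ mx h) ∨ (NotStopped A h ∧ mx h ≤ a) := by
  obtain ⟨⟨k, hk⟩, h1, h2, h3⟩ := hw
  simp only [List.get_eq_getElem] at h1 h2 h3
  have hk' : k < h.length + 1 := by simpa using hk
  by_cases hlt : k < h.length
  · left
    have e : (h ++ [a])[k] = h[k] := List.getElem_append_left hlt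
    rw [e] at h3
    refine ⟨⟨⟨k, hlt⟩, ?_, ?_, ?_⟩, ?_⟩
    · rwa [List.take_append_of_le_length (by omega)] at h1
    · intro j hj
      have := h2 j hj
      simp only at hj
      rwa [List.take_append_of_le_length (by omega)] at this
    · intro x hx
      exact h3 x (by simp [hx])
    · exact (h3 a (by simp)).trans (le_mx (List.getElem_mem hlt))
  · right
    have hke : k = h.length := by omega
    subst hke
    have e : (h ++ [a])[h.length] = a := by simp
    rw [e] at h3
    refine ⟨?_, mx_le.2 fun x hx => h3 x (by simp [hx])⟩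
    intro j hj
    have := h2 j hj
    rwa [List.take_append_of_le_length (by omega)] at this

/-- potential of a history on which the rule has stopped on the current maximum -/
noncomputable def QQ (n k M : ℕ) : ℝ := if n ≤ M then (k : ℝ) / n * mw k M else 0

/-- potential of a history on which the rule has not stopped -/
noncomputable def PP (n k M : ℕ) : ℝ := if n ≤ M then Bv n k * mw k M else mw k n

open Classical in
/-- the potential -/
noncomputable def pot (A : List ℕ → Bool) (n k : ℕ) (h : List ℕ) : ℝ :=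
  if Wins A h then QQ n k (mx h) else if NotStopped A h then PP n k (mx h) else 0

lemma QQ_nonneg (n k M : ℕ) : 0 ≤ QQ n k M := by
  unfold QQ; have := mw_nonneg k M; split_ifs <;> positivity

lemma PP_nonneg {n k : ℕ} (hk : k ≤ n) (M : ℕ) : 0 ≤ PP n k M := by
  unfold PP
  have := mw_nonneg k M
  have := mw_nonneg k n
  have := (Bv_bounds (n := n) (n - k) k (by omega)).1
  split_ifs <;> positivity

lemma pot_step (A : List ℕ → Bool) {N n k : ℕ} (hk : 1 ≤ k) (hkn : k < n) {h : List ℕ}
    (hh : h ∈ LL N k) :
    ∑ a ∈ (Icc 1 N).filter (fun a => a ∉ h), pot A n (k + 1) (h ++ [a]) ≤ pot A n k h := by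
  have hn : (0 : ℝ) < n := by exact_mod_cast (show 0 < n by omega)
  have hne : h ≠ [] := by
    rintro rfl
    rw [mem_LL] at hh
    simp at hh; omega
  have hB := Bv_bounds (n := n) (n - (k + 1)) (k + 1) (by omega)
  have hkn1 : ((k : ℝ) + 1) / n ≤ 1 := by
    rw [div_le_one hn]; exact_mod_cast (show k + 1 ≤ n by omega)
  by_cases hw : Wins A h
  · have hns := wins_not_notStopped hw
    have hpot : ∀ a, pot A n (k + 1) (h ++ [a]) ≤ if a ≤ mx h then QQ n (k + 1) (mx h) else 0 := by
      intro a
      unfold pot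
      by_cases h1 : Wins A (h ++ [a])
      · rcases wins_append h1 with h2 | h2
        · rw [if_pos h1, if_pos h2.2, mx_append, max_eq_left h2.2]
        · exact absurd h2.1 hns
      · rw [if_neg h1, if_neg (fun h2 => hns (notStopped_append h2))]
        have := QQ_nonneg n (k + 1) (mx h)
        split_ifs <;> simp [this]
    conv_rhs => rw [pot, if_pos hw]
    by_cases hM : n ≤ mx h
    · have := step (T := mx h) hh hk le_rfl (x := ((k : ℝ) + 1) / n) (y := 0) (by positivity) le_rfl
        (fun a => pot A n (k + 1) (h ++ [a]))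
        (fun a _ ha => by
          have := hpot a
          rw [if_pos ha, QQ, if_pos hM] at this
          push_cast at this
          exact this)
        (fun a ha => by
          have := hpot a
          rw [if_neg (by omega)] at this
          simpa using this)
      refine this.trans (le_of_eq ?_)
      rw [QQ, if_pos hM]
      field_simp
      ring
    · rw [QQ, if_neg hM]
      refine sum_nonpos fun a _ => (hpot a).trans ?_
      rw [QQ, if_neg hM]; simp
  · by_cases hns : NotStopped A h
    · have hpot1 : ∀ a, a ∉ h → a ≤ mx h →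
          pot A n (k + 1) (h ++ [a]) ≤ PP n (k + 1) (mx h) := by
        intro a ha hle
        unfold pot
        have h1 : ¬ Wins A (h ++ [a]) := by
          intro h1
          rcases wins_append h1 with h2 | h2
          · exact hw h2.1
          · exact ha (le_antisymm hle h2.2 ▸ mx_mem hne)
        rw [if_neg h1, mx_append, max_eq_left hle]
        have := PP_nonneg (n := n) (k := k + 1) (by omega) (mx h)
        split_ifs <;> simp [this]
      have hpot2 : ∀ a, mx h ≤ a →
          pot A n (k + 1) (h ++ [a]) ≤ max (QQ n (k + 1) a) (PP n (k + 1) a) := by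
        intro a hle
        unfold pot
        rw [mx_append, max_eq_right hle]
        have := QQ_nonneg n (k + 1) a
        split_ifs <;> simp [this]
      conv_rhs => rw [pot, if_neg hw, if_pos hns]
      by_cases hM : n ≤ mx h
      · have := step (T := mx h) hh hk le_rfl (x := Bv n (k + 1))
          (y := max (((k : ℝ) + 1) / n) (Bv n (k + 1))) hB.1 (le_max_of_le_right hB.1)
          (fun a => pot A n (k + 1) (h ++ [a]))
          (fun a hah ha => by
            have := hpot1 a hah ha
            rwa [PP, if_pos hM] at this)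
          (fun a ha => by
            have := hpot2 a ha.le
            have hna : n ≤ a := by omega
            rw [QQ, PP, if_pos hna, if_pos hna, ← max_mul_of_nonneg _ _ (mw_nonneg _ _)] at this
            push_cast at this
            exact this)
        refine this.trans (le_of_eq ?_)
        rw [PP, if_pos hM, Bv_rec hkn]
      · have hbig : ∀ a, n ≤ a → max (QQ n (k + 1) a) (PP n (k + 1) a) ≤ 1 * mw (k + 1) a := by
          intro a hna
          rw [QQ, PP, if_pos hna, if_pos hna, ← max_mul_of_nonneg _ _ (mw_nonneg _ _)]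
          refine mul_le_mul_of_nonneg_right (max_le ?_ hB.2) (mw_nonneg _ _)
          push_cast
          exact hkn1
        have := step (T := n) hh hk (by omega) (x := 1) (y := 1) zero_le_one zero_le_one
          (fun a => pot A n (k + 1) (h ++ [a]))
          (fun a hah ha => by
            rcases le_total a (mx h) with hle | hle
            · have := hpot1 a hah hle
              rw [PP, if_neg hM] at this
              simpa using this
            · refine (hpot2 a hle).trans ?_
              rcases eq_or_lt_of_le ha with rfl | hlt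
              · exact hbig _ le_rfl
              · rw [QQ, PP, if_neg (by omega), if_neg (by omega)]
                simp [mw_nonneg])
          (fun a ha => (hpot2 a (by omega)).trans (hbig a ha.le))
        refine this.trans (le_of_eq ?_)
        rw [PP, if_neg hM]
        field_simp
    · conv_rhs => rw [pot, if_neg hw, if_neg hns]
      refine sum_nonpos fun a _ => ?_
      unfold pot
      rw [if_neg, if_neg (fun h2 => hns (notStopped_append h2))]
      intro h1
      rcases wins_append h1 with h2 | h2
      · exact hw h2.1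
      · exact hns h2.1

lemma pot_mono (A : List ℕ → Bool) {N n k : ℕ} (hk : 1 ≤ k) : ∀ j, k + j ≤ n →
    ∑ h ∈ LL N (k + j), pot A n (k + j) h ≤ ∑ h ∈ LL N k, pot A n k h := by
  intro j
  induction j with
  | zero => intro _; simp
  | succ j ih =>
    intro hj
    refine le_trans ?_ (ih (by omega))
    rw [← add_assoc, sum_LL_succ]
    exact sum_le_sum fun h hh => pot_step A (by omega) (by omega) hh

/-- the normalising constant -/
noncomputable def ZZ (n N : ℕ) : ℝ := ∑ M ∈ Icc n N, (1 : ℝ) / M

lemma sum_mw {N n k : ℕ} (hk : 1 ≤ k) (hkn : k ≤ n) :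
    ∑ h ∈ LL N k, (if n ≤ mx h then mw k (mx h) else 0) = ZZ n N := by
  rw [sum_by_max N k hk (fun M => if n ≤ M then mw k M else 0), ZZ]
  have : Icc n N = (Icc 1 N).filter (fun M => n ≤ M) := by
    ext M; simp only [mem_filter, mem_Icc]; omega
  rw [this, sum_filter]
  refine sum_congr rfl fun M _ => ?_
  by_cases hM : n ≤ M
  · simp only [hM, if_true]
    obtain ⟨k, rfl⟩ : ∃ k', k = k' + 1 := ⟨k - 1, by omega⟩
    obtain ⟨M, rfl⟩ : ∃ M', M = M' + 1 := ⟨M - 1, by omega⟩
    have h1 : (0 : ℝ) < (M.descFactorial k : ℝ) := by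
      exact_mod_cast Nat.descFactorial_pos.2 (by omega)
    rw [mw, desc_succ', Nat.add_sub_cancel, Nat.descFactorial_succ]
    push_cast [Nat.cast_sub (show k ≤ M by omega)]
    field_simp
    ring
  · simp [hM]

lemma pot_start (A : List ℕ → Bool) {N n k : ℕ} (hk : 1 ≤ k) (hkn : k ≤ n) (hN : n ≤ N)
    (hc : (k : ℝ) / n ≤ 1 / Real.exp 1 + 1 / n) :
    ∑ h ∈ LL N k, pot A n k h ≤ (1 / Real.exp 1 + 1 / n) * ZZ n N + 1 / k := by
  have hB := (Bv_inv (n := n) (n - k) k (by omega) hk).1
  have hk' : (0 : ℝ) < k := by exact_mod_cast hk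
  have h1 : (0 : ℝ) < (n.descFactorial k : ℝ) := by
    exact_mod_cast Nat.descFactorial_pos.2 hkn
  have e : (1 : ℝ) / k = ∑ h ∈ LL N k, mw k n * (if mx h ≤ n then (1 : ℝ) else 0) := by
    rw [← mul_sum, count_le N n hN k, mw]; field_simp
  rw [e, ← sum_mw (N := N) hk hkn, mul_sum, ← sum_add_distrib]
  refine sum_le_sum fun h _ => ?_
  have m1 := mw_nonneg k (mx h)
  have m2 := mw_nonneg k n
  have hc0 : (0 : ℝ) ≤ 1 / Real.exp 1 + 1 / n := by positivity
  unfold pot QQ PP
  by_cases hM : n ≤ mx h
  · simp only [hM, if_true]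
    have t1 : (k : ℝ) / n * mw k (mx h) ≤ (1 / Real.exp 1 + 1 / n) * mw k (mx h) := by gcongr
    have t2 : Bv n k * mw k (mx h) ≤ (1 / Real.exp 1 + 1 / n) * mw k (mx h) := by gcongr
    have t3 : 0 ≤ (1 / Real.exp 1 + 1 / n) * mw k (mx h) := by positivity
    have t4 : 0 ≤ mw k n * (if mx h ≤ n then (1 : ℝ) else 0) := by split_ifs <;> positivity
    split_ifs <;> linarith
  · have hM' : mx h ≤ n := by omega
    simp only [hM, hM', if_true, if_false]
    split_ifs <;> linarith

open Classical in
/-- the bound for a deterministic rule -/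
lemma det_bound (A : List ℕ → Bool) {N n k : ℕ} (hk : 1 ≤ k) (hkn : k ≤ n) (hN : n ≤ N)
    (hc : (k : ℝ) / n ≤ 1 / Real.exp 1 + 1 / n) :
    ∑ l ∈ LL N n, (if n ≤ mx l then mw n (mx l) else 0) * (if Wins A l then 1 else 0) ≤
      (1 / Real.exp 1 + 1 / n) * ZZ n N + 1 / k := by
  refine le_trans ?_ (pot_start A hk hkn hN hc)
  have := pot_mono A (N := N) (n := n) hk (n - k) (by omega)
  rw [show k + (n - k) = n by omega] at this
  refine le_trans (sum_le_sum fun l _ => ?_) this
  have hn : (0 : ℝ) < n := by exact_mod_cast (show 0 < n by omega)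
  unfold pot
  by_cases hw : Wins A l
  · simp only [hw, if_true, QQ, div_self hn.ne', mul_one, one_mul, le_refl]
  · have := PP_nonneg (n := n) (k := n) le_rfl (mx l)
    simp only [hw, if_false, mul_zero]
    split_ifs <;> simp [this]

/-- the instance: the maximum `M` has probability proportional to `1 / M` on `{n, ..., N}`, and
the other elements form a uniform subset of `{1, ..., M - 1}` -/
noncomputable def DD (n N : ℕ) (S : Finset ℕ) : ℝ :=
  if S ∈ (Icc 1 N).powersetCard n then
    (n.factorial : ℝ) * (if n ≤ S.sup id then mw n (S.sup id) else 0) / ZZ n N else 0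

lemma ZZ_pos {n N : ℕ} (hn : 1 ≤ n) (hN : n ≤ N) : 0 < ZZ n N := by
  unfold ZZ
  refine sum_pos (fun M hM => ?_) ⟨n, by simp [hN]⟩
  have : (0 : ℝ) < M := by
    rw [mem_Icc] at hM; exact_mod_cast (show 0 < M by omega)
  positivity

lemma sum_DD {n N : ℕ} (g : List ℕ → ℝ) :
    ∑ S ∈ (Icc 1 N).powersetCard n,
      DD n N S * ((∑ l ∈ S.toList.permutations.toFinset, g l) / (n.factorial : ℝ)) =
    (∑ l ∈ LL N n, (if n ≤ mx l then mw n (mx l) else 0) * g l) / ZZ n N := by
  rw [← sum_sets_orders, sum_div]
  refine sum_congr rfl fun S hS => ?_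
  have hf : (0 : ℝ) < (n.factorial : ℝ) := by exact_mod_cast n.factorial_pos
  have : ∑ l ∈ S.toList.permutations.toFinset, (if n ≤ mx l then mw n (mx l) else 0) * g l =
      (if n ≤ S.sup id then mw n (S.sup id) else 0) *
        ∑ l ∈ S.toList.permutations.toFinset, g l := by
    rw [mul_sum]
    refine sum_congr rfl fun l hl => ?_
    rw [List.mem_toFinset, List.mem_permutations] at hl
    have : mx l = S.sup id := by
      rw [mx, List.toFinset_eq_of_perm _ _ hl]; simp
    rw [this]
  rw [this, DD, if_pos hS]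
  field_simp

lemma isInstance_DD {n N : ℕ} (hn : 1 ≤ n) (hN : n ≤ N) : IsInstance n N (DD n N) := by
  have hZ := ZZ_pos hn hN
  refine ⟨fun S => ?_, fun S hS => ?_, ?_⟩
  · unfold DD
    have := mw_nonneg n (S.sup id)
    split_ifs <;> positivity
  · unfold DD at hS
    by_cases h : S ∈ (Icc 1 N).powersetCard n
    · exact mem_powersetCard.1 h
    · exact absurd (if_neg h) hS
  · have := sum_DD (n := n) (N := N) (fun _ => 1)
    simp only [mul_one] at this
    rw [sum_mw hn le_rfl, div_self hZ.ne'] at this
    rw [← this]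
    refine sum_congr rfl fun S hS => ?_
    have hf : (0 : ℝ) < (n.factorial : ℝ) := by exact_mod_cast n.factorial_pos
    rw [sum_const, List.toFinset_card_of_nodup (List.nodup_permutations _ S.nodup_toList),
      List.length_permutations, length_toList, (mem_powersetCard.1 hS).2, nsmul_eq_mul, mul_one,
      div_self hf.ne', mul_one]

open MeasureTheory

lemma measurableSet_wins {Ω : Type*} [MeasurableSpace Ω] (A : Ω → List ℕ → Bool)
    (hA : ∀ h, MeasurableSet {ω | A ω h = true}) (l : List ℕ) :
    MeasurableSet {ω | Wins (A ω) l} := by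
  have hA' : ∀ h, MeasurableSet {ω | A ω h = false} := by
    intro h
    have : {ω | A ω h = false} = {ω | A ω h = true}ᶜ := by ext ω; simp
    rw [this]; exact (hA h).compl
  have : {ω | Wins (A ω) l} = ⋃ k : Fin l.length, ({ω | A ω (l.take (k.val + 1)) = true} ∩
      ((⋂ j, ⋂ (_ : j < k.val), {ω | A ω (l.take (j + 1)) = false}) ∩
        {_ω | ∀ x ∈ l, x ≤ l.get k})) := by
    ext ω; simp [Wins]
  rw [this]
  refine MeasurableSet.iUnion fun k => (hA _).inter (MeasurableSet.inter ?_ ?_)
  · exact MeasurableSet.iInter fun j => MeasurableSet.iInter fun _ => hA' _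
  · exact MeasurableSet.const _

open Classical in
theorem winProb_le {Ω : Type*} [MeasurableSpace Ω] (μ : Measure Ω) [IsProbabilityMeasure μ]
    (A : Ω → List ℕ → Bool) (hA : ∀ h, MeasurableSet {ω | A ω h = true})
    {N n k : ℕ} (hk : 1 ≤ k) (hkn : k ≤ n) (hN : n ≤ N)
    (hc : (k : ℝ) / n ≤ 1 / Real.exp 1 + 1 / n) :
    winProb μ A n N (DD n N) ≤ 1 / Real.exp 1 + 1 / n + 1 / (k * ZZ n N) := by
  have hZ := ZZ_pos (hk.trans hkn) hN
  have hk' : (0 : ℝ) < k := by exact_mod_cast hk
  rw [winProb, sum_DD, div_le_iff₀ hZ]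
  have e : ∀ l, μ.real {ω | Wins (A ω) l} = ∫ ω, (if Wins (A ω) l then (1 : ℝ) else 0) ∂μ := by
    intro l
    rw [← integral_indicator_one (measurableSet_wins A hA l)]
    congr 1
  have hint : ∀ l, Integrable (fun ω => (if Wins (A ω) l then (1 : ℝ) else 0)) μ := by
    intro l
    exact (integrable_const (1 : ℝ)).indicator (measurableSet_wins A hA l)
  simp_rw [e, ← integral_const_mul]
  rw [← integral_finsetSum _ (fun l _ => (hint l).const_mul _)]
  calc _ ≤ ∫ _ω, ((1 / Real.exp 1 + 1 / n) * ZZ n N + 1 / k) ∂μ := by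
        refine integral_mono (integrable_finsetSum _ fun l _ => (hint l).const_mul _)
          (integrable_const _) fun ω => det_bound (A ω) hk hkn hN hc
    _ = (1 / Real.exp 1 + 1 / n) * ZZ n N + 1 / k := by simp
    _ = _ := by field_simp

lemma ZZ_two {n : ℕ} (hn : 1 ≤ n) : 1 / 2 ≤ ZZ n (2 * n) := by
  have hn' : (0 : ℝ) < n := by exact_mod_cast hn
  unfold ZZ
  calc (1 : ℝ) / 2 ≤ ∑ _M ∈ Icc n (2 * n), (1 : ℝ) / (2 * n) := by
        rw [sum_const, Nat.card_Icc, nsmul_eq_mul, show 2 * n + 1 - n = n + 1 by omega]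
        push_cast
        rw [mul_one_div, div_le_div_iff₀ (by positivity) (by positivity)]
        linarith
    _ ≤ _ := by
        refine sum_le_sum fun M hM => ?_
        rw [mem_Icc] at hM
        have h1 : (0 : ℝ) < M := by exact_mod_cast (show 0 < M by omega)
        have h2 : (M : ℝ) ≤ 2 * n := by exact_mod_cast hM.2
        gcongr

theorem winProb_le_seven {Ω : Type*} [MeasurableSpace Ω] (μ : Measure Ω) [IsProbabilityMeasure μ]
    (A : Ω → List ℕ → Bool) (hA : ∀ h, MeasurableSet {ω | A ω h = true}) {n : ℕ} (hn : 1 ≤ n) :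
    winProb μ A n (2 * n) (DD n (2 * n)) ≤ 1 / Real.exp 1 + 7 / n := by
  have hn' : (0 : ℝ) < n := by exact_mod_cast hn
  set k := (n + 2) / 3 with hkdef
  have h1 : (n : ℝ) ≤ 3 * k := by exact_mod_cast (show n ≤ 3 * k by omega)
  have h2 : 3 * (k : ℝ) ≤ n + 2 := by exact_mod_cast (show 3 * k ≤ n + 2 by omega)
  have he : (1 : ℝ) / 3 ≤ 1 / Real.exp 1 := by
    have := Real.exp_one_lt_d9
    gcongr
    linarith
  have hc : (k : ℝ) / n ≤ 1 / Real.exp 1 + 1 / n := by
    have : (k : ℝ) / n ≤ 1 / 3 + 1 / n := by
      rw [div_le_iff₀ hn']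
      have : (1 / 3 + 1 / (n : ℝ)) * n = n / 3 + 1 := by field_simp
      rw [this]; linarith
    linarith
  have := winProb_le μ A hA (N := 2 * n) (n := n) (k := k) (by omega) (by omega) (by omega) hc
  refine this.trans ?_
  have hZ := ZZ_two hn
  have hk' : (0 : ℝ) < k := by exact_mod_cast (show 0 < k by omega)
  have : 1 / ((k : ℝ) * ZZ n (2 * n)) ≤ 6 / n := by
    rw [div_le_div_iff₀ (by positivity) hn']
    nlinarith
  have e : (7 : ℝ) / n = 1 / n + 6 / n := by ring
  linarith

end Pool.Agent.Lib.MP_d38296_lc
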