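import Pool.Agent.Lib.MP_d38296_lc.Lists

namespace Pool.Agent.Lib.MP_d38296_lc

open Finset

/-- weight of a history of length `k` with maximum `T` -/
noncomputable def mw (k T : ℕ) : ℝ := 1 / ((k : ℝ) * (T.descFactorial k : ℝ))

lemma mw_nonneg (k T : ℕ) : 0 ≤ mw k T := by unfold mw; positivity

lemma desc_succ' (a k : ℕ) : ((a + 1).descFactorial (k + 1) : ℝ) = (a + 1) * (a.descFactorial k) := by
  rw [Nat.succ_descFactorial_succ]; push_cast; ring

lemma tele_step {k a : ℕ} (hk : 1 ≤ k) (ha : k ≤ a) :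
    mw (k + 1) (a + 1) = (mw k a - mw k (a + 1)) / (k + 1) := by
  have h1 : (0 : ℝ) < (a.descFactorial k : ℝ) := by
    exact_mod_cast Nat.descFactorial_pos.2 ha
  have h2 : (0 : ℝ) < ((a + 1).descFactorial k : ℝ) := by
    exact_mod_cast Nat.descFactorial_pos.2 (by omega)
  have h3 : ((a + 1).descFactorial (k + 1) : ℝ) = (a + 1) * (a.descFactorial k) := desc_succ' a k
  have h4 : ((a + 1).descFactorial (k + 1) : ℝ) = (a + 1 - k) * ((a + 1).descFactorial k) := by
    rw [Nat.descFactorial_succ]; push_cast [Nat.cast_sub (show k ≤ a + 1 by omega)]; ring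
  have hk' : (0 : ℝ) < k := by exact_mod_cast hk
  have h5 : (0 : ℝ) < a + 1 - k := by
    have : (k : ℝ) ≤ a := by exact_mod_cast ha
    linarith
  have h6 : ((a + 1).descFactorial k : ℝ) = (a + 1) * (a.descFactorial k) / (a + 1 - k) := by
    rw [eq_div_iff h5.ne', ← h3, h4]; ring
  unfold mw
  rw [h3, h6]
  push_cast
  field_simp
  ring

lemma tele_sum {k T : ℕ} (hk : 1 ≤ k) (hT : k ≤ T) : ∀ j : ℕ,
    ∑ a ∈ Icc (T + 1) (T + j), mw (k + 1) a = (mw k T - mw k (T + j)) / (k + 1) := by
  intro j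
  induction j with
  | zero => simp
  | succ j ih =>
    rw [← add_assoc, sum_Icc_succ_top (by omega), ih, tele_step hk (by omega)]
    ring

lemma tele_le {k T : ℕ} (N : ℕ) (hk : 1 ≤ k) (hT : k ≤ T) :
    ∑ a ∈ Icc (T + 1) N, mw (k + 1) a ≤ mw k T / (k + 1) := by
  by_cases h : T ≤ N
  · obtain ⟨j, rfl⟩ := Nat.exists_eq_add_of_le h
    rw [tele_sum hk hT]
    have := mw_nonneg k (T + j)
    gcongr
    linarith
  · rw [Icc_eq_empty (by omega), sum_empty]
    have := mw_nonneg k T
    positivity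

lemma low_le {k T : ℕ} (hk : 1 ≤ k) (hT : k ≤ T) :
    ((T - k : ℕ) : ℝ) * mw (k + 1) T ≤ (k : ℝ) / (k + 1) * mw k T := by
  have hk' : (0 : ℝ) < k := by exact_mod_cast hk
  have h1 : (0 : ℝ) < (T.descFactorial k : ℝ) := by
    exact_mod_cast Nat.descFactorial_pos.2 hT
  rcases Nat.eq_zero_or_pos (T - k) with h | h
  · rw [h]; have := mw_nonneg k T; simp; positivity
  · have h2 : (0 : ℝ) < ((T - k : ℕ) : ℝ) := by exact_mod_cast h
    unfold mw
    rw [Nat.descFactorial_succ]
    push_cast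
    apply le_of_eq
    field_simp

/-- one step of the record process under the weights `mw` -/
lemma step {N k T : ℕ} {h : List ℕ} (hh : h ∈ LL N k) (hk : 1 ≤ k) (hT : mx h ≤ T)
    {x y : ℝ} (hx : 0 ≤ x) (hy : 0 ≤ y) (F : ℕ → ℝ)
    (hF1 : ∀ a, a ∉ h → a ≤ T → F a ≤ x * mw (k + 1) T)
    (hF2 : ∀ a, T < a → F a ≤ y * mw (k + 1) a) :
    ∑ a ∈ (Icc 1 N).filter (fun a => a ∉ h), F a ≤ (k * x + y) / (k + 1) * mw k T := by
  have hkT : k ≤ T := (length_le_mx hh).trans hT
  rw [← sum_filter_add_sum_filter_not _ (fun a => a ≤ T)]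
  have e1 : ∑ a ∈ ((Icc 1 N).filter (fun a => a ∉ h)).filter (fun a => a ≤ T), F a ≤
      x * ((k : ℝ) / (k + 1) * mw k T) := by
    calc _ ≤ ∑ a ∈ ((Icc 1 N).filter (fun a => a ∉ h)).filter (fun a => a ≤ T),
            x * mw (k + 1) T := by
          refine sum_le_sum fun a ha => ?_
          simp only [mem_filter] at ha
          exact hF1 a ha.1.2 ha.2
      _ ≤ ∑ a ∈ (Icc 1 T).filter (fun a => a ∉ h), x * mw (k + 1) T := by
          refine sum_le_sum_of_subset_of_nonneg ?_ fun _ _ _ => mul_nonneg hx (mw_nonneg _ _)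
          intro a ha
          simp only [mem_filter, mem_Icc] at ha ⊢
          exact ⟨⟨ha.1.1.1, ha.2⟩, ha.1.2⟩
      _ = x * (((T - k : ℕ) : ℝ) * mw (k + 1) T) := by
          rw [sum_const, card_unused hh hT, nsmul_eq_mul]; ring
      _ ≤ _ := mul_le_mul_of_nonneg_left (low_le hk hkT) hx
  have e2 : ∑ a ∈ ((Icc 1 N).filter (fun a => a ∉ h)).filter (fun a => ¬ a ≤ T), F a ≤
      y * (mw k T / (k + 1)) := by
    calc _ ≤ ∑ a ∈ ((Icc 1 N).filter (fun a => a ∉ h)).filter (fun a => ¬ a ≤ T),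
            y * mw (k + 1) a := by
          refine sum_le_sum fun a ha => ?_
          simp only [mem_filter] at ha
          exact hF2 a (by omega)
      _ ≤ ∑ a ∈ Icc (T + 1) N, y * mw (k + 1) a := by
          refine sum_le_sum_of_subset_of_nonneg ?_ fun _ _ _ => mul_nonneg hy (mw_nonneg _ _)
          intro a ha
          simp only [mem_filter, mem_Icc] at ha ⊢
          omega
      _ = y * ∑ a ∈ Icc (T + 1) N, mw (k + 1) a := by rw [mul_sum]
      _ ≤ _ := mul_le_mul_of_nonneg_left (tele_le N hk hkT) hy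
  calc _ ≤ x * ((k : ℝ) / (k + 1) * mw k T) + y * (mw k T / (k + 1)) := add_le_add e1 e2
    _ = _ := by ring

/-- value to go of the ordinal problem, indexed by the number of remaining arrivals -/
noncomputable def BB (n : ℕ) : ℕ → ℝ
  | 0 => 0
  | j + 1 => (((n - j - 1 : ℕ) : ℝ) * BB n j + max (((n - j : ℕ) : ℝ) / n) (BB n j)) / (n - j : ℕ)

/-- value to go after `k` arrivals -/
noncomputable def Bv (n k : ℕ) : ℝ := BB n (n - k)

lemma Bv_rec {n k : ℕ} (hk : k < n) :
    Bv n k = (k * Bv n (k + 1) + max (((k : ℝ) + 1) / n) (Bv n (k + 1))) / (k + 1) := by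
  unfold Bv
  have h1 : n - k = (n - (k + 1)) + 1 := by omega
  rw [h1, BB]
  have h2 : n - (n - (k + 1)) = k + 1 := by omega
  have h3 : k + 1 - 1 = k := by omega
  rw [h2, h3]
  push_cast
  rfl

lemma Bv_self (n : ℕ) : Bv n n = 0 := by simp [Bv, BB]

lemma Bv_bounds {n : ℕ} : ∀ j k : ℕ, k + j = n → 0 ≤ Bv n k ∧ Bv n k ≤ 1 := by
  intro j
  induction j with
  | zero => intro k hk; simp at hk; subst hk; simp [Bv_self]
  | succ j ih =>
    intro k hk
    obtain ⟨h0, h1⟩ := ih (k + 1) (by omega)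
    rw [Bv_rec (by omega)]
    have hn : (0 : ℝ) < n := by exact_mod_cast (show 0 < n by omega)
    have hkn : ((k : ℝ) + 1) / n ≤ 1 := by
      rw [div_le_one hn]; exact_mod_cast (show k + 1 ≤ n by omega)
    have hm : max (((k : ℝ) + 1) / n) (Bv n (k + 1)) ≤ 1 := max_le hkn h1
    have hm0 : 0 ≤ max (((k : ℝ) + 1) / n) (Bv n (k + 1)) := le_max_of_le_right h0
    constructor
    · positivity
    · rw [div_le_one (by positivity)]
      have : (k : ℝ) * Bv n (k + 1) ≤ k * 1 := by gcongr
      linarith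

lemma xlog_le {x : ℝ} (hx : 0 < x) : x * Real.log (1 / x) ≤ 1 / Real.exp 1 := by
  have h := Real.log_le_sub_one_of_pos (show 0 < 1 / (x * Real.exp 1) by positivity)
  have h2 : Real.log (1 / (x * Real.exp 1)) = Real.log (1 / x) - 1 := by
    rw [one_div, one_div, Real.log_inv, Real.log_inv, Real.log_mul hx.ne' (Real.exp_pos 1).ne',
      Real.log_exp]
    ring
  rw [h2] at h
  have h3 : Real.log (1 / x) ≤ 1 / (x * Real.exp 1) := by linarith
  calc x * Real.log (1 / x) ≤ x * (1 / (x * Real.exp 1)) := by gcongr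
    _ = 1 / Real.exp 1 := by field_simp

lemma Bv_inv {n : ℕ} : ∀ j k : ℕ, k + j = n → 1 ≤ k →
    Bv n k ≤ 1 / Real.exp 1 + 1 / n ∧
      (Bv n k ≤ (k : ℝ) / n * Real.log (n / k) + 1 / n ∨ (k : ℝ) / n ≤ Bv n k) := by
  intro j
  induction j with
  | zero =>
    intro k hk hk1
    simp at hk; subst hk
    have hn : (0 : ℝ) < k := by exact_mod_cast hk1
    rw [Bv_self]
    refine ⟨by positivity, Or.inl ?_⟩
    rw [div_self hn.ne']; simp
  | succ j ih =>
    intro k hk hk1
    obtain ⟨h0, h1⟩ := ih (k + 1) (by omega) (by omega)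
    have hn : (0 : ℝ) < n := by exact_mod_cast (show 0 < n by omega)
    have hk' : (0 : ℝ) < k := by exact_mod_cast hk1
    have hpsi : (k : ℝ) / n * Real.log (n / k) ≤ 1 / Real.exp 1 := by
      have := xlog_le (show 0 < (k : ℝ) / n by positivity)
      rwa [one_div_div] at this
    rw [Bv_rec (by omega)]
    push_cast at h1
    rcases le_total (Bv n (k + 1)) (((k : ℝ) + 1) / n) with hc | hc
    · rw [max_eq_left hc]
      rcases h1 with h1 | h1
      · have key : ((k : ℝ) * Bv n (k + 1) + (k + 1) / n) / (k + 1) ≤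
            (k : ℝ) / n * Real.log (n / k) + 1 / n := by
          have hl : Real.log (n / ((k : ℝ) + 1)) + 1 / (k + 1) ≤ Real.log (n / k) := by
            have h5 := Real.log_le_sub_one_of_pos (show 0 < (k : ℝ) / (k + 1) by positivity)
            have h6 : Real.log (n / ((k : ℝ) + 1)) =
                Real.log (n / k) + Real.log ((k : ℝ) / (k + 1)) := by
              rw [← Real.log_mul (by positivity) (by positivity)]
              congr 1; field_simp
            have h7 : (k : ℝ) / (k + 1) - 1 = -(1 / (k + 1)) := by field_simp; ring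
            linarith
          calc ((k : ℝ) * Bv n (k + 1) + (k + 1) / n) / (k + 1)
              ≤ ((k : ℝ) * (((k : ℝ) + 1) / n * Real.log (n / ((k : ℝ) + 1)) + 1 / n)
                  + (k + 1) / n) / (k + 1) := by gcongr
            _ = (k : ℝ) / n * (Real.log (n / ((k : ℝ) + 1)) + 1 / (k + 1)) + 1 / n := by
                field_simp
            _ ≤ _ := by gcongr
        exact ⟨key.trans (by linarith), Or.inl key⟩
      · have he : Bv n (k + 1) = ((k : ℝ) + 1) / n := le_antisymm hc h1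
        have key : ((k : ℝ) * Bv n (k + 1) + (k + 1) / n) / (k + 1) = Bv n (k + 1) := by
          rw [he]; field_simp
        rw [key]
        refine ⟨h0, Or.inr ?_⟩
        rw [he]; gcongr; linarith
    · rw [max_eq_right hc]
      have key : ((k : ℝ) * Bv n (k + 1) + Bv n (k + 1)) / (k + 1) = Bv n (k + 1) := by
        field_simp
      rw [key]
      refine ⟨h0, Or.inr (le_trans ?_ hc)⟩
      gcongr; linarith

end Pool.Agent.Lib.MP_d38296_lc
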