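import Pool.Agent.Lib.MP_d38296_lc.Main

/-! The value of the ordinal rule under a weighted law of the maximum. -/

namespace Pool.Agent.Lib.MP_d38296_lc

open Finset

lemma dmw {k a : ℕ} (h : k + 1 ≤ a) :
    ((a - 1).descFactorial k : ℝ) * mw (k + 1) a = 1 / ((k + 1) * a) := by
  obtain ⟨a, rfl⟩ : ∃ b, a = b + 1 := ⟨a - 1, by omega⟩
  have h1 : (0 : ℝ) < (a.descFactorial k : ℝ) := by
    exact_mod_cast Nat.descFactorial_pos.2 (by omega)
  rw [mw, desc_succ', Nat.add_sub_cancel]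
  push_cast
  field_simp

lemma sum_above (N k : ℕ) (f : ℕ → ℝ) : ∑ h ∈ LL N k, ∑ a ∈ Icc (mx h + 1) N, f a =
    ∑ a ∈ Icc 1 N, ((a - 1).descFactorial k : ℝ) * f a := by
  have e : ∀ h ∈ LL N k, ∑ a ∈ Icc (mx h + 1) N, f a =
      ∑ a ∈ Icc 1 N, (if mx h ≤ a - 1 then (1 : ℝ) else 0) * f a := fun h _ => by
    simp only [ite_mul, one_mul, zero_mul]
    rw [← sum_filter]
    congr 1
    ext a
    simp only [mem_filter, mem_Icc]
    omega
  rw [sum_congr rfl e, sum_comm]
  refine sum_congr rfl fun a ha => ?_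
  rw [← sum_mul, count_le N (a - 1) (by have := (mem_Icc.1 ha).2; omega)]

lemma sum_max (N k : ℕ) (g : ℕ → ℝ) : ∑ h ∈ LL N (k + 1), g (mx h) =
    (k + 1) * ∑ a ∈ Icc 1 N, ((a - 1).descFactorial k : ℝ) * g a := by
  rw [sum_by_max N (k + 1) (by omega), mul_sum]
  refine sum_congr rfl fun a ha => ?_
  obtain ⟨a, rfl⟩ : ∃ b, a = b + 1 := ⟨a - 1, by have := (mem_Icc.1 ha).1; omega⟩
  rw [desc_succ', Nat.add_sub_cancel, Nat.descFactorial_succ]
  by_cases h : k ≤ a
  · push_cast [Nat.cast_sub h]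
    ring
  · rw [Nat.descFactorial_of_lt (by omega)]
    simp

lemma split_le {N k : ℕ} {h : List ℕ} (hh : h ∈ LL N k) {x : ℝ} (F G : ℕ → ℝ)
    (h1 : ∀ a, a ∉ h → a ≤ mx h → F a ≤ x) (h2 : ∀ a, mx h < a → F a ≤ G a) :
    ∑ a ∈ (Icc 1 N).filter (fun a => a ∉ h), F a ≤
      ((mx h - k : ℕ) : ℝ) * x + ∑ a ∈ Icc (mx h + 1) N, G a := by
  have hN := mx_le_N hh
  rw [← sum_filter_add_sum_filter_not _ (fun a => a ≤ mx h)]
  refine add_le_add ?_ ?_
  · have e : ((Icc 1 N).filter (fun a => a ∉ h)).filter (fun a => a ≤ mx h) =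
        (Icc 1 (mx h)).filter (fun a => a ∉ h) := by
      ext a
      simp only [mem_filter, mem_Icc]
      exact ⟨fun h => ⟨⟨h.1.1.1, h.2⟩, h.1.2⟩, fun h => ⟨⟨⟨h.1.1, h.1.2.trans hN⟩, h.2⟩, h.1.2⟩⟩
    rw [e, ← card_unused hh le_rfl, ← nsmul_eq_mul]
    exact sum_le_card_nsmul _ _ _ fun a ha =>
      h1 a (mem_filter.1 ha).2 (mem_Icc.1 (mem_filter.1 ha).1).2
  · have e : ((Icc 1 N).filter (fun a => a ∉ h)).filter (fun a => ¬ a ≤ mx h) =
        Icc (mx h + 1) N := by
      ext a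
      simp only [mem_filter, mem_Icc]
      exact ⟨fun h => ⟨by omega, h.1.1.2⟩,
        fun h' => ⟨⟨⟨by omega, h'.2⟩, fun hc => by have := le_mx hc; omega⟩, by omega⟩⟩
    rw [e]
    exact sum_le_sum fun a ha => h2 a (mem_Icc.1 ha).1

/-- comparison for the law of the next record -/
lemma jump_le {N k : ℕ} (hk : 1 ≤ k) (hN : N ≤ 16 * k) {f g : ℕ → ℝ} (h0 : 0 ≤ g N)
    (h : ∀ T, ∀ θ : ℝ, 0 ≤ θ → θ ≤ 15 / 16 → θ * g (T + 1) + (1 - θ) * f (T + 1) ≤ g T)
    {T : ℕ} (h1 : k ≤ T) (h2 : T ≤ N) :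
    ∑ a ∈ Icc (T + 1) N, f a * mw (k + 1) a ≤ g T * mw k T / (k + 1) := by
  induction h2 using Nat.decreasingInduction with
  | self =>
    have := mw_nonneg k N
    rw [Icc_eq_empty (by omega), sum_empty]
    positivity
  | of_succ T hT ih =>
    have hd : (0 : ℝ) < (T.descFactorial k : ℝ) := by
      exact_mod_cast Nat.descFactorial_pos.2 h1
    have hk' : (0 : ℝ) < k := by exact_mod_cast hk
    have hkT : (k : ℝ) ≤ T := by exact_mod_cast h1
    have hTN : (T : ℝ) + 1 ≤ 16 * k := by exact_mod_cast (show T + 1 ≤ 16 * k by omega)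
    have e : mw k (T + 1) = (T + 1 - k) / (T + 1) * mw k T := by
      have h3 := desc_succ' T k
      rw [Nat.descFactorial_succ] at h3
      push_cast [Nat.cast_sub (show k ≤ T + 1 by omega)] at h3
      have h4 : (0 : ℝ) < T + 1 - k := by linarith
      have h5 : ((T + 1).descFactorial k : ℝ) = (T + 1) * T.descFactorial k / (T + 1 - k) := by
        rw [eq_div_iff h4.ne', ← h3]
        ring
      rw [mw, mw, h5]
      field_simp
    have h6 := h T ((T + 1 - k) / (T + 1)) (div_nonneg (by linarith) (by positivity))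
      (by rw [div_le_iff₀ (by positivity)]; linarith)
    rw [← insert_Icc_add_one_left_eq_Icc (by omega), sum_insert (by simp), tele_step hk h1]
    refine (add_le_add le_rfl (ih (by omega))).trans ?_
    rw [e, ← mul_div_assoc, ← add_div]
    have := mul_le_mul_of_nonneg_right h6 (mw_nonneg k T)
    gcongr
    linarith

variable (n N : ℕ) (w : ℕ → ℝ)

/-- reward for stopping on the current maximum -/
noncomputable def QW (k a : ℕ) : ℝ := (k : ℝ) / n * w a * mw k a

/-- value of the ordinal rule, indexed by the number of remaining arrivals -/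
noncomputable def YY : ℕ → ℕ → ℝ
  | 0 => fun _ => 0
  | j + 1 => fun T => ((T - (n - j - 1) : ℕ) : ℝ) * YY j T + ∑ a ∈ Icc (T + 1) N,
      if Bv n (n - j) ≤ ((n - j : ℕ) : ℝ) / n then QW n w (n - j) a else YY j a

/-- value of the ordinal rule after `k` arrivals with maximum `T` -/
noncomputable def YW (k T : ℕ) : ℝ := YY n N w (n - k) T

/-- value of the ordinal rule at a record -/
noncomputable def RW (k a : ℕ) : ℝ := if Bv n k ≤ (k : ℝ) / n then QW n w k a else YW n N w k a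

variable {n N w}

lemma YW_self (T : ℕ) : YW n N w n T = 0 := by simp [YW, YY]

lemma YW_rec {k : ℕ} (hk : k < n) (T : ℕ) : YW n N w k T =
    ((T - k : ℕ) : ℝ) * YW n N w (k + 1) T + ∑ a ∈ Icc (T + 1) N, RW n N w (k + 1) a := by
  unfold RW YW
  rw [show n - k = n - (k + 1) + 1 by omega, YY, show n - (n - (k + 1)) = k + 1 by omega,
    Nat.add_sub_cancel]

lemma QW_nonneg (hw : ∀ a, 0 ≤ w a) (k a : ℕ) : 0 ≤ QW n w k a := by
  have := hw a
  have := mw_nonneg k a
  unfold QW
  positivity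

lemma YW_nonneg (hw : ∀ a, 0 ≤ w a) {k : ℕ} (hk : k ≤ n) (T : ℕ) : 0 ≤ YW n N w k T := by
  induction hk using Nat.decreasingInduction generalizing T with
  | self => rw [YW_self]
  | of_succ k hk ih =>
    rw [YW_rec hk]
    refine add_nonneg (mul_nonneg (by positivity) (ih T)) (sum_nonneg fun a _ => ?_)
    unfold RW
    split_ifs
    exacts [QW_nonneg hw _ _, ih a]

lemma sum_wmw (hw : ∀ a, a < n → w a = 0) {k : ℕ} (hk : k < n) :
    ∑ a ∈ Icc 1 N, ((a - 1).descFactorial k : ℝ) * (w a * mw (k + 1) a) =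
      (∑ a ∈ Icc 1 N, w a / a) / (k + 1) := by
  rw [sum_div]
  refine sum_congr rfl fun a ha => ?_
  by_cases h : a < n
  · simp [hw a h]
  · rw [mul_left_comm, dmw (by omega)]
    have : (0 : ℝ) < a := by exact_mod_cast (mem_Icc.1 ha).1
    field_simp

lemma sum_YW (hw : ∀ a, a < n → w a = 0) {k : ℕ} (hk : k + 1 ≤ n) :
    ∑ a ∈ Icc 1 N, ((a - 1).descFactorial k : ℝ) * YW n N w (k + 1) a =
      Bv n (k + 1) * (∑ a ∈ Icc 1 N, w a / a) / (k + 1) := by
  obtain ⟨j, hj⟩ : ∃ j, k + 1 + j = n := ⟨n - (k + 1), by omega⟩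
  induction j generalizing k with
  | zero =>
    obtain rfl : n = k + 1 := by omega
    simp [YW_self, Bv_self]
  | succ j ih =>
    have h1 := ih (k := k + 1) (by omega) (by omega)
    have h2 := sum_above N (k + 1) (RW n N w (k + 1 + 1))
    rw [sum_max N k fun T => ∑ a ∈ Icc (T + 1) N, RW n N w (k + 1 + 1) a] at h2
    have h3 : ∀ a ∈ Icc 1 N, ((a - 1).descFactorial k : ℝ) * YW n N w (k + 1) a =
        ((a - 1).descFactorial (k + 1) : ℝ) * YW n N w (k + 1 + 1) a +
          ((a - 1).descFactorial k : ℝ) * ∑ b ∈ Icc (a + 1) N, RW n N w (k + 1 + 1) b := by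
      intro a _
      rw [YW_rec (by omega), Nat.descFactorial_succ, show a - 1 - k = a - (k + 1) by omega]
      push_cast
      ring
    have h4 : ∑ a ∈ Icc 1 N, ((a - 1).descFactorial (k + 1) : ℝ) * RW n N w (k + 1 + 1) a =
        max ((((k + 1 : ℕ) : ℝ) + 1) / n) (Bv n (k + 1 + 1)) * (∑ a ∈ Icc 1 N, w a / a) /
          (((k + 1 : ℕ) : ℝ) + 1) := by
      unfold RW
      by_cases hc : Bv n (k + 1 + 1) ≤ ((k + 1 + 1 : ℕ) : ℝ) / n
      · simp only [if_pos hc]
        rw [max_eq_left (by simpa using hc), mul_div_assoc, ← sum_wmw hw (by omega), mul_sum]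
        refine sum_congr rfl fun a _ => ?_
        rw [QW]
        push_cast
        ring
      · simp only [if_neg hc]
        rw [max_eq_right (by simpa using le_of_not_ge hc), h1]
    rw [sum_congr rfl h3, sum_add_distrib, h1, Bv_rec (show k + 1 < n by omega),
      eq_div_iff (by positivity), add_mul, mul_comm _ ((k : ℝ) + 1), mul_comm _ ((k : ℝ) + 1), h2, h4]
    push_cast
    field_simp

lemma YW_near {ψ : ℕ → ℝ} (hw : ∀ a, a < n → w a = 0) (hw0 : ∀ a, 0 ≤ w a) (h0 : ∀ a, 0 ≤ ψ a)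
    (h1 : ∀ a, ψ (a + 1) ≤ 32 / 31 * ψ a) (h2 : ∀ a, |w (a + 1) - w a| ≤ 2 * ψ a)
    (h3 : w N ≤ ψ N) {k : ℕ} (hk : k ≤ n) (hk1 : 1 ≤ k) (hN : N ≤ 16 * k) {T : ℕ} (hT : k ≤ T)
    (hTN : T ≤ N) : |YW n N w k T - Bv n k * w T * mw k T| ≤
      62 * ((n - k) / (k + 1)) * ψ T * mw k T := by
  induction hk using Nat.decreasingInduction generalizing T with
  | self => simp [YW_self, Bv_self]
  | of_succ k hk ih =>
    have hn : (0 : ℝ) < n := by exact_mod_cast (show 0 < n by omega)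
    have hkn : (k : ℝ) + 1 ≤ n := by exact_mod_cast hk
    set M := max (((k : ℝ) + 1) / n) (Bv n (k + 1)) with hM
    set ρ : ℝ := 62 * ((n - (k + 1 : ℕ)) / ((k + 1 : ℕ) + 1)) with hρ
    have hB := Bv_bounds (n := n) (n - (k + 1)) (k + 1) (by omega)
    have M0 : 0 ≤ M := le_max_of_le_right hB.1
    have M1 : M ≤ 1 := max_le ((div_le_one hn).2 hkn) hB.2
    have ρ0 : 0 ≤ ρ := by
      rw [hρ]
      push_cast
      exact mul_nonneg (by norm_num) (div_nonneg (by linarith) (by positivity))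
    have m0 := mw_nonneg k T
    have j1 := jump_le hk1 hN (f := ψ) (g := fun a => 2 * ψ a) (by linarith [h0 N])
      (fun a θ t0 t1 => by nlinarith [h1 a, h0 a, h0 (a + 1)]) hT hTN
    have j2 := jump_le hk1 hN (f := w) (g := fun a => w a + 62 * ψ a) (by linarith [h0 N, hw0 N])
      (fun a θ t0 t1 => by nlinarith [h1 a, h0 a, h0 (a + 1), (abs_le.1 (h2 a)).2]) hT hTN
    have j3 := jump_le hk1 hN (f := fun a => -w a) (g := fun a => -w a + 62 * ψ a)
      (by linarith [h0 N])
      (fun a θ t0 t1 => by nlinarith [h1 a, h0 a, h0 (a + 1), (abs_le.1 (h2 a)).1]) hT hTN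
    simp only [neg_mul, sum_neg_distrib] at j3
    have a1 : |((T - k : ℕ) : ℝ) * YW n N w (k + 1) T -
        Bv n (k + 1) * w T * (k / (k + 1) * mw k T)| ≤ ρ * ψ T * (k / (k + 1) * mw k T) := by
      rcases hT.eq_or_lt with rfl | hlt
      · have := h0 k
        simp only [Nat.sub_self, Nat.cast_zero, hw k hk, zero_mul, mul_zero, sub_zero, abs_zero]
        positivity
      · have e : (k : ℝ) / (k + 1) * mw k T = ((T - k : ℕ) : ℝ) * mw (k + 1) T := by
          have h5 : (0 : ℝ) < (T.descFactorial k : ℝ) := by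
            exact_mod_cast Nat.descFactorial_pos.2 hT
          have h6 : (0 : ℝ) < ((T - k : ℕ) : ℝ) := by exact_mod_cast (show 0 < T - k by omega)
          have h7 : (0 : ℝ) < k := by exact_mod_cast hk1
          rw [mw, mw, Nat.descFactorial_succ]
          push_cast
          field_simp
        have := mul_le_mul_of_nonneg_left (ih (by omega) (by omega) hlt hTN)
          (Nat.cast_nonneg (T - k))
        rw [← abs_of_nonneg (Nat.cast_nonneg (α := ℝ) (T - k)), ← abs_mul,
          abs_of_nonneg (Nat.cast_nonneg (α := ℝ) (T - k))] at this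
        rw [e, mul_left_comm _ ((T - k : ℕ) : ℝ), mul_left_comm _ ((T - k : ℕ) : ℝ), ← mul_sub]
        exact this
    have a2 : |∑ a ∈ Icc (T + 1) N, RW n N w (k + 1) a -
        M * ∑ a ∈ Icc (T + 1) N, w a * mw (k + 1) a| ≤
        ρ * ∑ a ∈ Icc (T + 1) N, ψ a * mw (k + 1) a := by
      rw [mul_sum, mul_sum, ← sum_sub_distrib]
      refine (abs_sum_le_sum_abs _ _).trans (sum_le_sum fun a ha => ?_)
      unfold RW
      split_ifs with hc
      · have := h0 a
        have := mw_nonneg (k + 1) a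
        rw [hM, max_eq_left (by simpa using hc), QW]
        push_cast
        rw [mul_assoc, sub_self, abs_zero]
        positivity
      · rw [hM, max_eq_right (by simpa using le_of_not_ge hc), ← mul_assoc, ← mul_assoc]
        exact ih (by omega) (by omega) (by have := (mem_Icc.1 ha).1; omega) (mem_Icc.1 ha).2
    have a3 : |M * ∑ a ∈ Icc (T + 1) N, w a * mw (k + 1) a - M * (w T * mw k T / (k + 1))| ≤
        62 * ψ T * mw k T / (k + 1) := by
      rw [← mul_sub, abs_mul, abs_of_nonneg M0]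
      refine (mul_le_of_le_one_left (abs_nonneg _) M1).trans (abs_le.2 ⟨?_, ?_⟩)
      · have : (-w T + 62 * ψ T) * mw k T / (k + 1) =
          -(w T * mw k T / (k + 1)) + 62 * ψ T * mw k T / (k + 1) := by ring
        linarith
      · have : (w T + 62 * ψ T) * mw k T / (k + 1) =
          w T * mw k T / (k + 1) + 62 * ψ T * mw k T / (k + 1) := by ring
        linarith
    have a4 := mul_le_mul_of_nonneg_left j1 ρ0
    have e1 : Bv n k * w T * mw k T = Bv n (k + 1) * w T * (k / (k + 1) * mw k T) +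
        M * (w T * mw k T / (k + 1)) := by
      rw [Bv_rec hk, ← hM]
      ring
    have e2 : 62 * ((n - k) / (k + 1)) * ψ T * mw k T = ρ * ψ T * (k / (k + 1) * mw k T) +
        ρ * (2 * ψ T * mw k T / (k + 1)) + 62 * ψ T * mw k T / (k + 1) := by
      rw [hρ]
      push_cast
      field_simp
      ring
    rw [YW_rec hk, e1, e2]
    rw [abs_le] at a1 a2 a3 ⊢
    constructor <;> linarith [a1.1, a1.2, a2.1, a2.2, a3.1, a3.2]

end Pool.Agent.Lib.MP_d38296_lc
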