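import Pool.Agent.Lib.MP_d38296_lc.ShA

/-! The advantage of an arbitrary rule over the ordinal rule under a weighted law of the maximum. -/

namespace Pool.Agent.Lib.MP_d38296_lc

open Finset

variable {n N : ℕ} {w : ℕ → ℝ}

open Classical in
variable (n N w) in
/-- the potential -/
noncomputable def potW (A : List ℕ → Bool) (k : ℕ) (h : List ℕ) : ℝ :=
  if Wins A h then QW n w k (mx h) else if NotStopped A h then YW n N w k (mx h) else 0

variable (n N w) in
/-- the gain of the better decision at a record -/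
noncomputable def EW (k a : ℕ) : ℝ := max (QW n w k a) (YW n N w k a) - RW n N w k a

lemma EW_nonneg (k a : ℕ) : 0 ≤ EW n N w k a := by
  unfold EW RW
  split_ifs <;> simp

lemma potW_le (hw0 : ∀ a, 0 ≤ w a) (A : List ℕ → Bool) (k : ℕ) (h : List ℕ) :
    potW n N w A k h ≤ max (QW n w k (mx h)) (YW n N w k (mx h)) := by
  have := QW_nonneg (n := n) hw0 k (mx h)
  unfold potW
  split_ifs <;> simp [this]

lemma potW_step (hw0 : ∀ a, 0 ≤ w a) (A : List ℕ → Bool) {k : ℕ} (hk : 1 ≤ k) (hkn : k < n)
    {h : List ℕ} (hh : h ∈ LL N k) :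
    ∑ a ∈ (Icc 1 N).filter (fun a => a ∉ h), potW n N w A (k + 1) (h ++ [a]) ≤
      potW n N w A k h + ∑ a ∈ Icc (mx h + 1) N, EW n N w (k + 1) a := by
  have hne : h ≠ [] := by
    rintro rfl
    rw [mem_LL] at hh
    simp at hh
    omega
  have hE : 0 ≤ ∑ a ∈ Icc (mx h + 1) N, EW n N w (k + 1) a :=
    sum_nonneg fun a _ => EW_nonneg _ _
  by_cases hw : Wins A h
  · have hns := wins_not_notStopped hw
    have hpot : ∀ a, potW n N w A (k + 1) (h ++ [a]) ≤
        if a ≤ mx h then QW n w (k + 1) (mx h) else 0 := by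
      intro a
      unfold potW
      by_cases h1 : Wins A (h ++ [a])
      · rcases wins_append h1 with h2 | h2
        · rw [if_pos h1, if_pos h2.2, mx_append, max_eq_left h2.2]
        · exact absurd h2.1 hns
      · rw [if_neg h1, if_neg (fun h2 => hns (notStopped_append h2))]
        have := QW_nonneg (n := n) hw0 (k + 1) (mx h)
        split_ifs <;> simp [this]
    refine (split_le hh (x := QW n w (k + 1) (mx h)) _ (fun _ => 0)
      (fun a _ ha => by simpa [ha] using hpot a)
      fun a ha => by simpa [ha.not_ge] using hpot a).trans ?_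
    rw [sum_const_zero, add_zero, potW, if_pos hw]
    refine le_add_of_le_of_nonneg ?_ hE
    have h1 := mul_le_mul_of_nonneg_left (low_le hk (length_le_mx hh))
      (show 0 ≤ ((k : ℝ) + 1) / n * w (mx h) by have := hw0 (mx h); positivity)
    unfold QW
    push_cast
    refine le_trans (le_of_eq (by ring)) (h1.trans (le_of_eq ?_))
    field_simp
  · by_cases hns : NotStopped A h
    · refine (split_le hh (x := YW n N w (k + 1) (mx h)) _
        (fun a => RW n N w (k + 1) a + EW n N w (k + 1) a) (fun a ha hle => ?_)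
        fun a ha => ?_).trans (le_of_eq ?_)
      · have h1 : ¬ Wins A (h ++ [a]) := by
          intro h1
          rcases wins_append h1 with h2 | h2
          · exact hw h2.1
          · exact ha (le_antisymm hle h2.2 ▸ mx_mem hne)
        have := YW_nonneg (n := n) (N := N) hw0 (k := k + 1) hkn (mx h)
        rw [potW, if_neg h1, mx_append, max_eq_left hle]
        split_ifs <;> simp [this]
      · refine (potW_le hw0 _ _ _).trans (le_of_eq ?_)
        rw [mx_append, max_eq_right ha.le, EW]
        ring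
      · rw [potW, if_neg hw, if_pos hns, YW_rec hkn, sum_add_distrib, add_assoc]
    · rw [potW, if_neg hw, if_neg hns, zero_add]
      refine le_trans (sum_nonpos fun a _ => ?_) hE
      rw [potW, if_neg, if_neg (fun h2 => hns (notStopped_append h2))]
      intro h1
      rcases wins_append h1 with h2 | h2
      · exact hw h2.1
      · exact hns h2.1

lemma potW_mono (hw0 : ∀ a, 0 ≤ w a) (A : List ℕ → Bool) {k : ℕ} (hk : 1 ≤ k) {j : ℕ}
    (hj : k ≤ j) (hjn : j ≤ n) : ∑ h ∈ LL N j, potW n N w A j h ≤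
      ∑ h ∈ LL N k, potW n N w A k h + ∑ i ∈ Ico k j,
        ∑ a ∈ Icc 1 N, ((a - 1).descFactorial i : ℝ) * EW n N w (i + 1) a := by
  induction j, hj using Nat.le_induction with
  | base => simp
  | succ j hj ih =>
    rw [sum_LL_succ, sum_Ico_succ_top hj, ← add_assoc, ← sum_above]
    refine le_trans ?_ (add_le_add (ih (by omega)) le_rfl)
    rw [← sum_add_distrib]
    exact sum_le_sum fun h hh => potW_step hw0 A (by omega) (by omega) hh

lemma Bv_anti {k : ℕ} (hk : k < n) : Bv n (k + 1) ≤ Bv n k := by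
  rw [Bv_rec hk, le_div_iff₀ (by positivity)]
  have := le_max_right (((k : ℝ) + 1) / n) (Bv n (k + 1))
  linarith

lemma Bv_anti' {k j : ℕ} (hk : k ≤ j) (hj : j ≤ n) : Bv n j ≤ Bv n k := by
  induction j, hk using Nat.le_induction with
  | base => rfl
  | succ j _ ih => exact (Bv_anti hj).trans (ih (by omega))

lemma Bv_ge {k : ℕ} (hk : k ≤ n) : (k : ℝ) * (n - k) / n ^ 2 ≤ Bv n k := by
  induction hk using Nat.decreasingInduction with
  | self => simp [Bv_self]
  | of_succ k hk ih =>
    have hn : (0 : ℝ) < n := by exact_mod_cast (show 0 < n by omega)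
    have hkn : (k : ℝ) ≤ n := by exact_mod_cast hk.le
    have h1 := le_max_left (((k : ℝ) + 1) / n) (Bv n (k + 1))
    have h2 := mul_le_mul_of_nonneg_left ih (Nat.cast_nonneg k)
    have h3 : (k : ℝ) * (n - k) / n ^ 2 * (k + 1) ≤
        k * (((k + 1 : ℕ) : ℝ) * (n - (k + 1 : ℕ)) / n ^ 2) + (k + 1) / n := by
      have : (k : ℝ) * (((k + 1 : ℕ) : ℝ) * (n - (k + 1 : ℕ)) / n ^ 2) + (k + 1) / n =
          k * (n - k) / n ^ 2 * (k + 1) + (k + 1) * (n - k) / n ^ 2 := by
        push_cast
        field_simp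
        ring
      rw [this]
      exact le_add_of_nonneg_right (div_nonneg (mul_nonneg (by positivity) (by linarith))
        (by positivity))
    rw [Bv_rec hk, le_div_iff₀ (by positivity)]
    linarith

lemma sum_gap (k : ℕ) {x y : ℝ} (hx : 0 ≤ x) (hy : 0 < y) :
    ∑ i ∈ Ico k n, max 0 (x - |((i + 1 : ℕ) : ℝ) / n - Bv n (i + 1)| * y) ≤
      x * (2 * n * x / y + 1) := by
  classical
  set s := (Ico k n).filter fun i => |((i + 1 : ℕ) : ℝ) / n - Bv n (i + 1)| * y < x with hs
  have h1 : ∑ i ∈ Ico k n, max 0 (x - |((i + 1 : ℕ) : ℝ) / n - Bv n (i + 1)| * y) ≤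
      ∑ _i ∈ s, x := by
    rw [hs, sum_filter]
    refine sum_le_sum fun i _ => ?_
    split_ifs with h
    · exact max_le hx (sub_le_self _ (by positivity))
    · exact max_le le_rfl (by linarith)
  refine h1.trans ?_
  rw [sum_const, nsmul_eq_mul, mul_comm]
  refine mul_le_mul_of_nonneg_left ?_ hx
  rcases s.eq_empty_or_nonempty with h | h
  · rw [h, card_empty, Nat.cast_zero]
    positivity
  · have h2 : s ⊆ Icc (s.min' h) (s.min' h + ⌊2 * n * x / y⌋₊) := fun i hi => by
      have h3 := s.min'_le i hi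
      have h4 := mem_filter.1 (s.min'_mem h)
      have h5 := mem_filter.1 hi
      have h6 := (mem_Ico.1 h5.1).2
      have hn : (0 : ℝ) < n := by exact_mod_cast (show 0 < n by omega)
      have h7 := Bv_anti' (n := n) (Nat.succ_le_succ h3) h6
      have h8 := (abs_lt.1 ((lt_div_iff₀ hy).2 h4.2)).1
      have h9 := (abs_lt.1 ((lt_div_iff₀ hy).2 h5.2)).2
      have h10 : ((i - s.min' h : ℕ) : ℝ) ≤ 2 * n * x / y := by
        have e : 2 * n * x / y = 2 * (x / y) * n := by ring
        rw [Nat.cast_sub h3, e, ← div_le_iff₀ hn, sub_div]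
        push_cast at h8 h9
        rw [add_div] at h8 h9
        linarith
      have := Nat.le_floor h10
      exact mem_Icc.2 ⟨h3, by omega⟩
    have h3 := card_le_card h2
    rw [Nat.card_Icc, show s.min' h + ⌊2 * n * x / y⌋₊ + 1 - s.min' h = ⌊2 * n * x / y⌋₊ + 1 by
      omega] at h3
    have h4 : (s.card : ℝ) ≤ ⌊2 * n * x / y⌋₊ + 1 := by exact_mod_cast h3
    have h5 := Nat.floor_le (show 0 ≤ 2 * n * x / y by positivity)
    linarith

lemma gain_le {q b y x v m : ℝ} (hm : 0 ≤ m) (h : |y - b * v * m| ≤ x * m) :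
    max (q * v * m) y - (if b ≤ q then q * v * m else y) ≤ max 0 (x - |q - b| * v) * m := by
  have h1 := le_max_left 0 (x - |q - b| * v)
  have h2 := mul_le_mul_of_nonneg_right (le_max_right 0 (x - |q - b| * v)) hm
  have h3 := mul_nonneg h1 hm
  rw [abs_le] at h
  split_ifs with hc
  · rw [abs_of_nonneg (sub_nonneg.2 hc)] at *
    rw [sub_le_iff_le_add]
    exact max_le (by linarith) (by linarith [h.2])
  · rw [abs_of_nonpos (by linarith)] at *
    rw [sub_le_iff_le_add]
    exact max_le (by linarith [h.1]) (by linarith)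

end Pool.Agent.Lib.MP_d38296_lc
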