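import Pool.Agent.Lib.MP_d38296_lc.ShB

/-! The instance whose maximum has the square of a tent function as weight. -/

namespace Pool.Agent.Lib.MP_d38296_lc

open Finset

/-- the tent function on `{n, ..., n + m + 1}` -/
def tnt (n m a : ℕ) : ℕ := min (a - n) (n + m + 1 - a)

/-- the weight of the maximum -/
noncomputable def ww (n m a : ℕ) : ℝ := (tnt n m a : ℝ) ^ 2

/-- the size of the error -/
noncomputable def ps (n m a : ℕ) : ℝ := tnt n m a + 31 * (31 / 32) ^ (n - a)

/-- the bound for the gain at the value `a` -/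
noncomputable def ph (n a : ℕ) : ℝ :=
  if a ≤ n then 434 * (31 * (31 / 32) ^ (n - a)) else 500000000

variable {n m : ℕ}

lemma ww_nonneg (a : ℕ) : 0 ≤ ww n m a := sq_nonneg _

lemma ww_zero (a : ℕ) (h : a < n) : ww n m a = 0 := by
  simp [ww, show tnt n m a = 0 by unfold tnt; omega]

lemma ps_nonneg (a : ℕ) : 0 ≤ ps n m a := by unfold ps; positivity

lemma ph_nonneg (a : ℕ) : 0 ≤ ph n a := by unfold ph; split_ifs <;> positivity

lemma ps_succ (a : ℕ) : ps n m (a + 1) ≤ 32 / 31 * ps n m a := by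
  unfold ps
  by_cases h : n ≤ a
  · have h1 : (tnt n m (a + 1) : ℝ) ≤ tnt n m a + 1 := by
      exact_mod_cast (show tnt n m (a + 1) ≤ tnt n m a + 1 by unfold tnt; omega)
    have h2 : (0 : ℝ) ≤ tnt n m a := Nat.cast_nonneg _
    rw [show n - (a + 1) = 0 by omega, show n - a = 0 by omega, pow_zero]
    linarith
  · rw [show tnt n m (a + 1) = 0 by unfold tnt; omega, show tnt n m a = 0 by unfold tnt; omega,
      show n - a = n - (a + 1) + 1 by omega, pow_succ]
    apply le_of_eq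
    push_cast
    ring

lemma ww_succ (a : ℕ) : |ww n m (a + 1) - ww n m a| ≤ 2 * ps n m a := by
  by_cases h : n ≤ a
  · have h1 : (tnt n m (a + 1) : ℝ) ≤ tnt n m a + 1 := by
      exact_mod_cast (show tnt n m (a + 1) ≤ tnt n m a + 1 by unfold tnt; omega)
    have h2 : (tnt n m a : ℝ) ≤ tnt n m (a + 1) + 1 := by
      exact_mod_cast (show tnt n m a ≤ tnt n m (a + 1) + 1 by unfold tnt; omega)
    have h3 : (0 : ℝ) ≤ tnt n m a := Nat.cast_nonneg _
    have h4 : (0 : ℝ) ≤ tnt n m (a + 1) := Nat.cast_nonneg _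
    rw [ps, ww, ww, show n - a = 0 by omega, pow_zero, abs_le]
    constructor <;> nlinarith
  · have := ps_nonneg (n := n) (m := m) a
    rw [ww, ww, show tnt n m (a + 1) = 0 by unfold tnt; omega,
      show tnt n m a = 0 by unfold tnt; omega, sub_self, abs_zero]
    linarith

lemma ww_top : ww n m (n + m) ≤ ps n m (n + m) := by
  have h1 : (tnt n m (n + m) : ℝ) ≤ 1 := by
    exact_mod_cast (show tnt n m (n + m) ≤ 1 by unfold tnt; omega)
  have h3 : (0 : ℝ) ≤ tnt n m (n + m) := Nat.cast_nonneg _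
  rw [ps, ww, show n - (n + m) = 0 by omega, pow_zero]
  nlinarith

lemma near (hm : m ≤ n) {k a : ℕ} (hk : k ≤ n) (hk1 : 1 ≤ k) (h8 : n ≤ 8 * k) (h1 : k ≤ a)
    (h2 : a ≤ n + m) : |YW n (n + m) (ww n m) k a - Bv n k * ww n m a * mw k a| ≤
      434 * ps n m a * mw k a := by
  refine (YW_near ww_zero ww_nonneg ps_nonneg ps_succ ww_succ ww_top hk hk1 (by omega) h1
    h2).trans ?_
  have h3 : ((n : ℝ) - k) / (k + 1) ≤ 7 := by
    have : (n : ℝ) ≤ 8 * k := by exact_mod_cast h8
    rw [div_le_iff₀ (by positivity)]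
    linarith
  have := ps_nonneg (n := n) (m := m) a
  have := mw_nonneg k a
  gcongr
  linarith

lemma ps_low {a : ℕ} (h : a ≤ n) : 434 * ps n m a = ph n a := by
  rw [ps, ph, if_pos h, show tnt n m a = 0 by unfold tnt; omega, Nat.cast_zero, zero_add]

lemma ps_high {a : ℕ} (h : n < a) (h2 : a ≤ n + m) :
    (1 : ℝ) ≤ tnt n m a ∧ 434 * ps n m a ≤ 13888 * tnt n m a := by
  have h1 : (1 : ℝ) ≤ tnt n m a := by exact_mod_cast (show 1 ≤ tnt n m a by unfold tnt; omega)
  rw [ps, show n - a = 0 by omega, pow_zero]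
  exact ⟨h1, by linarith⟩

lemma sum_ph (hm : 1 ≤ m) : ∑ a ∈ Icc 1 (n + m), ph n a ≤ 600000000 * m := by
  have h1 : ∀ j, j ≤ n → ∑ a ∈ Icc 1 j, ph n a ≤ 434 * (31 * 32 * (31 / 32) ^ (n - j)) := by
    intro j hj
    induction j with
    | zero =>
      rw [Icc_eq_empty (by omega), sum_empty]
      positivity
    | succ j ih =>
      have := ih (by omega)
      rw [show n - j = n - (j + 1) + 1 by omega, pow_succ] at this
      rw [sum_Icc_succ_top (by omega), ph, if_pos hj]
      linarith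
  have h2 : ∀ j : ℕ, ∑ a ∈ Icc 1 (n + j), ph n a ≤ 434 * (31 * 32) + 500000000 * j := by
    intro j
    induction j with
    | zero => simpa using h1 n le_rfl
    | succ j ih =>
      rw [← add_assoc, sum_Icc_succ_top (by omega), ph, if_neg (by omega)]
      push_cast
      linarith
  have h3 : (1 : ℝ) ≤ m := by exact_mod_cast hm
  linarith [h2 m]

lemma dmw_le {k a : ℕ} (hn : 1 ≤ n) (h8 : n ≤ 8 * (k + 1)) (ha : 1 ≤ a) :
    ((a - 1).descFactorial k : ℝ) * mw (k + 1) a ≤ 8 / n / (k + 1) := by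
  have hn' : (0 : ℝ) < n := by exact_mod_cast hn
  by_cases h : k + 1 ≤ a
  · have h1 : (n : ℝ) ≤ 8 * a := by exact_mod_cast (show n ≤ 8 * a by omega)
    have h2 : (0 : ℝ) < a := by exact_mod_cast ha
    rw [dmw h, div_div, div_le_div_iff₀ (by positivity) (by positivity)]
    nlinarith [show (0 : ℝ) < k + 1 by positivity]
  · rw [Nat.descFactorial_of_lt (by omega), Nat.cast_zero, zero_mul]
    positivity

lemma sum_EW (hm1 : 1 ≤ m) (hm : m ≤ n) {k : ℕ} (h8 : n ≤ 8 * k) :
    ∑ i ∈ Ico k n, ∑ a ∈ Icc 1 (n + m),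
      ((a - 1).descFactorial i : ℝ) * EW n (n + m) (ww n m) (i + 1) a ≤
      64 / n * (600000000 * m) := by
  have hn : (0 : ℝ) < n := by exact_mod_cast (show 0 < n by omega)
  rw [sum_comm]
  refine le_trans (sum_le_sum fun a ha => ?_) ((mul_sum _ _ _).ge.trans
    (mul_le_mul_of_nonneg_left (sum_ph (n := n) hm1) (by positivity)))
  rw [mem_Icc] at ha
  have h1 : ∀ i ∈ Ico k n, ((a - 1).descFactorial i : ℝ) * EW n (n + m) (ww n m) (i + 1) a ≤
      64 / n / n * max 0 (434 * ps n m a -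
        |((i + 1 : ℕ) : ℝ) / n - Bv n (i + 1)| * ww n m a) := fun i hi => by
    rw [mem_Ico] at hi
    by_cases h : i + 1 ≤ a
    · have h2 := gain_le (q := ((i + 1 : ℕ) : ℝ) / n) (mw_nonneg _ _)
        (near hm (k := i + 1) hi.2 (by omega) (by omega) h ha.2)
      have h3 := dmw_le (n := n) (k := i) (by omega) (by omega) ha.1
      have h4 : 8 / (n : ℝ) / (i + 1) ≤ 64 / n / n := by
        have : (n : ℝ) ≤ 8 * (i + 1) := by exact_mod_cast (show n ≤ 8 * (i + 1) by omega)
        rw [div_div, div_div, div_le_div_iff₀ (by positivity) (by positivity)]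
        nlinarith
      refine (mul_le_mul_of_nonneg_left h2 (Nat.cast_nonneg _)).trans ?_
      rw [mul_comm (max _ _), ← mul_assoc]
      exact mul_le_mul_of_nonneg_right (h3.trans h4) (le_max_left _ _)
    · rw [Nat.descFactorial_of_lt (by omega), Nat.cast_zero, zero_mul]
      exact mul_nonneg (by positivity) (le_max_left _ _)
  refine (sum_le_sum h1).trans ?_
  rw [← mul_sum, div_mul_eq_mul_div, mul_div_assoc]
  refine mul_le_mul_of_nonneg_left ((div_le_iff₀ hn).2 ?_) (by positivity)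
  by_cases h : a ≤ n
  · have h2 := ph_nonneg (n := n) a
    refine (sum_le_card_nsmul _ _ (ph n a) fun i _ => max_le h2 ?_).trans ?_
    · rw [ps_low h]
      exact sub_le_self _ (mul_nonneg (abs_nonneg _) (ww_nonneg _))
    · rw [Nat.card_Ico, nsmul_eq_mul, mul_comm]
      gcongr
      omega
  · obtain ⟨h2, h3⟩ := ps_high (m := m) (not_le.1 h) ha.2
    have h4 : (tnt n m a : ℝ) ≤ n := by exact_mod_cast (show tnt n m a ≤ n by unfold tnt; omega)
    refine (sum_le_sum fun i _ => max_le_max le_rfl (sub_le_sub_right h3 _)).trans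
      ((sum_gap k (by positivity) (by unfold ww; positivity)).trans ?_)
    have e : 13888 * (tnt n m a : ℝ) * (2 * n * (13888 * tnt n m a) / ww n m a + 1) =
        2 * 13888 ^ 2 * n + 13888 * tnt n m a := by
      unfold ww
      field_simp
    rw [e, ph, if_neg h]
    linarith

lemma sum_start (hm1 : 1 ≤ m) (hm : m ≤ n) {k : ℕ} (h8 : n ≤ 8 * (k + 1)) (hk : k + 1 ≤ n)
    (hg : ((k + 1 : ℕ) : ℝ) / n + 1 / 10 ≤ Bv n (k + 1)) (A : List ℕ → Bool) :
    ∑ h ∈ LL (n + m) (k + 1), potW n (n + m) (ww n m) A (k + 1) h ≤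
      Bv n (k + 1) * (∑ a ∈ Icc 1 (n + m), ww n m a / a) + 8 / n * (600000000 * m) := by
  have hn : (0 : ℝ) < n := by exact_mod_cast (show 0 < n by omega)
  have h1 : ∀ h ∈ LL (n + m) (k + 1), potW n (n + m) (ww n m) A (k + 1) h ≤
      YW n (n + m) (ww n m) (k + 1) (mx h) + ph n (mx h) * mw (k + 1) (mx h) := fun h hh => by
    have h2 := (abs_le.1 (near hm hk (by omega) h8 (length_le_mx hh) (mx_le_N hh))).1
    have h3 := mw_nonneg (k + 1) (mx h)
    have h4 := ww_nonneg (n := n) (m := m) (mx h)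
    have h5 : 434 * ps n m (mx h) - ww n m (mx h) / 10 ≤ ph n (mx h) := by
      by_cases hc : mx h ≤ n
      · rw [ps_low hc]
        linarith
      · obtain ⟨-, h6⟩ := ps_high (m := m) (not_le.1 hc) (mx_le_N hh)
        rw [ph, if_neg hc, ww]
        nlinarith [sq_nonneg ((tnt n m (mx h) : ℝ) - 69440)]
    refine (potW_le ww_nonneg _ _ _).trans (max_le ?_
      (le_add_of_nonneg_right (mul_nonneg (ph_nonneg _) h3)))
    have h6 := mul_le_mul_of_nonneg_right h5 h3
    have h7 := mul_le_mul_of_nonneg_right hg (mul_nonneg h4 h3)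
    rw [QW]
    linarith
  refine (sum_le_sum h1).trans ?_
  rw [sum_add_distrib, sum_max _ _ (YW n (n + m) (ww n m) (k + 1)), sum_YW ww_zero hk,
    mul_div_cancel₀ _ (by positivity), sum_max _ _ fun a => ph n a * mw (k + 1) a,
    mul_sum _ _ ((k : ℝ) + 1)]
  refine add_le_add le_rfl (le_trans (sum_le_sum fun a ha => ?_) ((mul_sum _ _ _).ge.trans
    (mul_le_mul_of_nonneg_left (sum_ph (n := n) hm1) (by positivity))))
  have h2 := (le_div_iff₀ (by positivity)).1
    (dmw_le (n := n) (k := k) (by omega) h8 (mem_Icc.1 ha).1)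
  have h3 := mul_le_mul_of_nonneg_right h2 (ph_nonneg (n := n) a)
  linarith

lemma sum_ww (hm1 : 1 ≤ m) (hm : m ≤ n) :
    (m : ℝ) ^ 3 / (48 * n) ≤ ∑ a ∈ Icc 1 (n + m), ww n m a / a := by
  have hn : (0 : ℝ) < n := by exact_mod_cast (show 0 < n by omega)
  have h1 : ∀ j : ℕ, 2 * j ≤ m + 1 →
      (j : ℝ) ^ 3 / (6 * n) ≤ ∑ a ∈ Icc 1 (n + j), ww n m a / a := by
    intro j hj
    induction j with
    | zero =>
      simpa using sum_nonneg fun a _ => div_nonneg (ww_nonneg a) (Nat.cast_nonneg a)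
    | succ j ih =>
      have h2 : (j : ℝ) + 1 ≤ n := by exact_mod_cast (show j + 1 ≤ n by omega)
      have h3 : ((j : ℝ) + 1) ^ 2 / (2 * n) ≤ (j + 1) ^ 2 / (n + j + 1) := by
        gcongr
        linarith
      have h4 : ((j : ℝ) + 1) ^ 3 / (6 * n) ≤ j ^ 3 / (6 * n) + (j + 1) ^ 2 / (2 * n) := by
        rw [show ((j : ℝ) + 1) ^ 2 / (2 * n) = 3 * (j + 1) ^ 2 / (6 * n) by field_simp; norm_num,
          ← add_div]
        gcongr
        nlinarith [Nat.cast_nonneg (α := ℝ) j]
      rw [← add_assoc, sum_Icc_succ_top (by omega), ww,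
        show tnt n m (n + j + 1) = j + 1 by unfold tnt; omega]
      push_cast
      linarith [ih (by omega)]
  have h2 : (m : ℝ) / 2 ≤ ((m + 1) / 2 : ℕ) := by
    have : (m : ℝ) ≤ 2 * ((m + 1) / 2 : ℕ) := by
      exact_mod_cast (show m ≤ 2 * ((m + 1) / 2) by omega)
    linarith
  calc (m : ℝ) ^ 3 / (48 * n) = (m / 2) ^ 3 / (6 * n) := by field_simp; norm_num
    _ ≤ (((m + 1) / 2 : ℕ) : ℝ) ^ 3 / (6 * n) := by gcongr
    _ ≤ _ := (h1 _ (by omega)).trans (sum_le_sum_of_subset_of_nonneg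
        (Icc_subset_Icc le_rfl (by omega))
        fun a _ _ => div_nonneg (ww_nonneg a) (Nat.cast_nonneg a))

open Classical in
lemma det_sharp (hm1 : 1 ≤ m) (hm : m ≤ n) (hn : 100 ≤ n) (A : List ℕ → Bool) :
    ∑ l ∈ LL (n + m) n, ww n m (mx l) * mw n (mx l) * (if Wins A l then 1 else 0) ≤
      (Bv n 0 + 3000000000000 / m ^ 2) * ∑ a ∈ Icc 1 (n + m), ww n m a / a := by
  have hn' : (100 : ℝ) ≤ n := by exact_mod_cast hn
  have hm' : (0 : ℝ) < m := by exact_mod_cast hm1
  obtain ⟨k, hk, hk'⟩ : ∃ k, n ≤ 8 * (k + 1) ∧ 8 * k ≤ n := ⟨n / 8, by omega, by omega⟩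
  have hg : ((k + 1 : ℕ) : ℝ) / n + 1 / 10 ≤ Bv n (k + 1) := by
    refine le_trans ?_ ((Bv_ge (k := n / 2) (by omega)).trans (Bv_anti' (by omega) (by omega)))
    have h1 : (n : ℝ) ≤ 2 * (n / 2 : ℕ) + 1 := by exact_mod_cast (show n ≤ 2 * (n / 2) + 1 by omega)
    have h2 : 2 * ((n / 2 : ℕ) : ℝ) ≤ n := by exact_mod_cast (show 2 * (n / 2) ≤ n by omega)
    have h3 : 8 * (k : ℝ) ≤ n := by exact_mod_cast hk'
    rw [div_add' _ _ _ (by positivity), div_le_div_iff₀ (by positivity) (by positivity)]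
    push_cast
    have h4 : (n - 1) / 2 * (n / 2) ≤ ((n / 2 : ℕ) : ℝ) * (n - (n / 2 : ℕ)) :=
      mul_le_mul (by linarith) (by linarith) (by positivity) (by positivity)
    have h5 : ((k : ℝ) + 1 + 1 / 10 * n) * n ≤ (n - 1) / 2 * (n / 2) := by nlinarith
    nlinarith
  have h1 := potW_mono (n := n) (N := n + m) (ww_nonneg (n := n) (m := m)) A
    (k := k + 1) (by omega) (j := n) (by omega) le_rfl
  have h2 := sum_EW hm1 hm hk
  have h3 := sum_start hm1 hm hk (by omega) hg A
  have h4 := sum_ww hm1 hm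
  have h5 := Bv_anti' (n := n) (k := 0) (j := k + 1) (by omega) (by omega)
  have h6 := mul_le_mul_of_nonneg_left h4 (show (0 : ℝ) ≤ 3000000000000 / m ^ 2 by positivity)
  have h7 := mul_le_mul_of_nonneg_right h5 (le_trans (by positivity) h4)
  have e : (3000000000000 : ℝ) / m ^ 2 * (m ^ 3 / (48 * n)) = 62500000000 * (m / n) := by
    field_simp
    norm_num
  have e1 : (64 : ℝ) / n * (600000000 * m) = 38400000000 * (m / n) := by ring
  have e2 : (8 : ℝ) / n * (600000000 * m) = 4800000000 * (m / n) := by ring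
  have h8 : (0 : ℝ) ≤ m / n := by positivity
  refine le_trans (sum_le_sum fun l _ => ?_) (h1.trans (by linarith))
  have h9 := YW_nonneg (n := n) (N := n + m) (ww_nonneg (n := n) (m := m)) le_rfl (mx l)
  unfold potW
  split_ifs
  · rw [QW, div_self (by positivity), one_mul, mul_one]
  · simpa using h9
  · simp

open MeasureTheory

lemma sum_orders {N : ℕ} (g : ℕ → ℝ) (f : List ℕ → ℝ) :
    ∑ S ∈ (Icc 1 N).powersetCard n, (n.factorial : ℝ) * g (S.sup id) *
      ((∑ l ∈ S.toList.permutations.toFinset, f l) / (n.factorial : ℝ)) =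
    ∑ l ∈ LL N n, g (mx l) * f l := by
  rw [← sum_sets_orders]
  refine sum_congr rfl fun S _ => ?_
  have hf : (0 : ℝ) < (n.factorial : ℝ) := by exact_mod_cast n.factorial_pos
  have : ∑ l ∈ S.toList.permutations.toFinset, g (mx l) * f l =
      g (S.sup id) * ∑ l ∈ S.toList.permutations.toFinset, f l := by
    rw [mul_sum]
    refine sum_congr rfl fun l hl => ?_
    rw [List.mem_toFinset, List.mem_permutations] at hl
    rw [mx, List.toFinset_eq_of_perm _ _ hl, toList_toFinset]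
  rw [this]
  field_simp

lemma card_orders {N : ℕ} {S : Finset ℕ} (hS : S ∈ (Icc 1 N).powersetCard n) :
    S.toList.permutations.toFinset.card = n.factorial := by
  rw [List.toFinset_card_of_nodup (List.nodup_permutations _ S.nodup_toList),
    List.length_permutations, length_toList, (mem_powersetCard.1 hS).2]

lemma winProb_le_one {Ω : Type*} [MeasurableSpace Ω] (μ : Measure Ω) [IsProbabilityMeasure μ]
    (A : Ω → List ℕ → Bool) {N : ℕ} {D : Finset ℕ → ℝ} (hD : IsInstance n N D) :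
    winProb μ A n N D ≤ 1 := by
  have hf : (0 : ℝ) < (n.factorial : ℝ) := by exact_mod_cast n.factorial_pos
  rw [← hD.2.2]
  refine sum_le_sum fun S hS => mul_le_of_le_one_right (hD.1 S) ((div_le_one hf).2 ?_)
  refine (sum_le_card_nsmul _ _ 1 fun l _ => measureReal_le_one).trans ?_
  rw [card_orders hS, nsmul_eq_mul, mul_one]

universe u

open Classical in
theorem upper_aux (hm1 : 1 ≤ m) (hm : m ≤ n) (hn : 100 ≤ n) :
    ∃ D : Finset ℕ → ℝ, IsInstance n (n + m) D ∧
      ∀ (Ω : Type u) [MeasurableSpace Ω] (μ : Measure Ω) [IsProbabilityMeasure μ]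
        (A : Ω → List ℕ → Bool), (∀ h : List ℕ, MeasurableSet {ω | A ω h = true}) →
          winProb μ A n (n + m) D ≤ Bv n 0 + 3000000000000 / m ^ 2 := by
  set Z := ∑ a ∈ Icc 1 (n + m), ww n m a / a with hZ
  have hn' : (0 : ℝ) < n := by exact_mod_cast (show 0 < n by omega)
  have hm' : (0 : ℝ) < m := by exact_mod_cast hm1
  have hf : (0 : ℝ) < (n.factorial : ℝ) := by exact_mod_cast n.factorial_pos
  have Z0 : 0 < Z := lt_of_lt_of_le (by positivity) (sum_ww hm1 hm)
  let D : Finset ℕ → ℝ := fun S => if S ∈ (Icc 1 (n + m)).powersetCard n then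
    n.factorial * (ww n m (S.sup id) * mw n (S.sup id) / Z) else 0
  have hD : ∀ f : List ℕ → ℝ, ∑ S ∈ (Icc 1 (n + m)).powersetCard n,
      D S * ((∑ l ∈ S.toList.permutations.toFinset, f l) / (n.factorial : ℝ)) =
      (∑ l ∈ LL (n + m) n, ww n m (mx l) * mw n (mx l) * f l) / Z := fun f => by
    rw [sum_div, ← sum_congr rfl fun l _ => div_mul_eq_mul_div _ Z (f l),
      ← sum_orders fun a => ww n m a * mw n a / Z]
    exact sum_congr rfl fun S hS => by simp only [D, if_pos hS]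
  refine ⟨D, ⟨fun S => ?_, fun S hS => ?_, ?_⟩, fun Ω _ μ _ A hA => ?_⟩
  · have := mw_nonneg n (S.sup id)
    have := ww_nonneg (n := n) (m := m) (S.sup id)
    simp only [D]
    split_ifs <;> positivity
  · by_contra h
    exact hS (if_neg fun h' => h (mem_powersetCard.1 h'))
  · have h1 := hD fun _ => 1
    have h2 : ∑ l ∈ LL (n + m) n, ww n m (mx l) * mw n (mx l) * 1 = Z := by
      obtain ⟨k, hk⟩ : ∃ k, k + 1 = n := ⟨n - 1, by omega⟩
      have h3 := sum_max (n + m) k fun a => ww n m a * mw (k + 1) a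
      rw [sum_wmw ww_zero (by omega), mul_div_cancel₀ _ (by positivity), hk] at h3
      simpa using h3
    rw [h2, div_self Z0.ne'] at h1
    rw [← h1]
    refine sum_congr rfl fun S hS => ?_
    rw [sum_const, card_orders hS, nsmul_eq_mul, mul_one, div_self hf.ne', mul_one]
  · rw [winProb, hD, div_le_iff₀ Z0]
    have e : ∀ l, μ.real {ω | Wins (A ω) l} =
        ∫ ω, (if Wins (A ω) l then (1 : ℝ) else 0) ∂μ := fun l => by
      rw [← integral_indicator_one (measurableSet_wins A hA l)]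
      congr 1
    have hint : ∀ l, Integrable (fun ω => (if Wins (A ω) l then (1 : ℝ) else 0)) μ := fun l =>
      (integrable_const (1 : ℝ)).indicator (measurableSet_wins A hA l)
    simp_rw [e, ← integral_const_mul]
    rw [← integral_finsetSum _ (fun l _ => (hint l).const_mul _)]
    refine (integral_mono (integrable_finsetSum _ fun l _ => (hint l).const_mul _)
      (integrable_const _) fun ω => det_sharp hm1 hm hn (A ω)).trans (le_of_eq ?_)
    simp [hZ]

theorem upper (hn : 1 ≤ n) (hm : m ≤ n) : ∃ D : Finset ℕ → ℝ, IsInstance n (n + m) D ∧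
    ∀ (Ω : Type u) [MeasurableSpace Ω] (μ : Measure Ω) [IsProbabilityMeasure μ]
      (A : Ω → List ℕ → Bool), (∀ h : List ℕ, MeasurableSet {ω | A ω h = true}) →
        winProb μ A n (n + m) D ≤ Bv n 0 + 12000000000000 / ((m : ℝ) + 1) ^ 2 := by
  by_cases h : 100 ≤ n ∧ 1 ≤ m
  · obtain ⟨D, h1, h2⟩ := upper_aux.{u} h.2 hm h.1
    refine ⟨D, h1, fun Ω _ μ _ A hA => (h2 Ω μ A hA).trans (add_le_add le_rfl ?_)⟩
    have hm' : (1 : ℝ) ≤ m := by exact_mod_cast h.2
    rw [div_le_div_iff₀ (by positivity) (by positivity)]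
    nlinarith
  · have h1 := isInstance_DD hn (show n ≤ n + m by omega)
    refine ⟨_, h1, fun Ω _ μ _ A _ => (winProb_le_one μ A h1).trans
      (le_add_of_nonneg_of_le (Bv_bounds n 0 (by omega)).1 ?_)⟩
    have h2 : (m : ℝ) + 1 ≤ 100 := by exact_mod_cast (show m + 1 ≤ 100 by omega)
    rw [le_div_iff₀ (by positivity)]
    nlinarith [Nat.cast_nonneg (α := ℝ) m]

end Pool.Agent.Lib.MP_d38296_lc
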