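import Pool.Agent.Lib.MP_d38296_lc.UOrd

/-! Every instance on `{1, ..., n + L}` leaves an advantage of order `1 / L ^ 2`. -/

namespace Pool.Agent.Lib.MP_d38296_lc

open Finset

/-- the probability that the best of `i` arrivals is among the first `r` -/
noncomputable def uu (r i : ℕ) : ℝ := if i ≤ r then 1 else r / i

lemma uu_succ (r k : ℕ) :
    (k + 1 : ℝ) * uu r (k + 1) = (k + if k < r then 1 else 0) * uu r k := by
  unfold uu
  rcases lt_trichotomy k r with h | rfl | h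
  · simp [h, h.le, Nat.succ_le_of_lt h]
  · simp
    field_simp
  · have : (k : ℝ) ≠ 0 := by exact_mod_cast (show k ≠ 0 by omega)
    rw [if_neg (by omega), if_neg (by omega), if_neg (by omega)]
    push_cast
    field_simp
    ring

lemma mem_of_Ord {S : Finset ℕ} {l : List ℕ} (hl : l ∈ Ord S) {x : ℕ} : x ∈ l ↔ x ∈ S := by
  rw [← (mem_Ord.1 hl).2, List.mem_toFinset]

lemma Ord_empty : Ord ∅ = {[]} := by
  ext l
  simp only [mem_Ord, mem_singleton, List.toFinset_eq_empty_iff]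
  exact ⟨fun h => h.2, fun h => by simp [h]⟩

open Classical in
lemma count_ns {A : List ℕ → Bool} {r M : ℕ}
    (hA : ∀ h a, a < M → A (h ++ [a]) = true → mx h ≤ a ∧ r ≤ h.length) :
    ∀ (k : ℕ) (S : Finset ℕ), S.card = k → (∀ x ∈ S, x < M) →
      (k.factorial : ℝ) * uu r k ≤ ∑ l ∈ Ord S, if NotStopped A l then (1 : ℝ) else 0 := by
  intro k
  induction k with
  | zero =>
    intro S hS _
    rw [card_eq_zero.1 hS, Ord_empty]
    simp [uu, NotStopped]
  | succ k ih =>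
    intro S hS hM
    have hne : S.Nonempty := card_pos.1 (by omega)
    have htm := S.max'_mem hne
    have hce : ∀ a ∈ S, (S.erase a).card = k := fun a ha => by
      rw [card_erase_of_mem ha, hS]; rfl
    have key : ∀ a ∈ S, (a = S.max' hne → k < r) → (k.factorial : ℝ) * uu r k ≤
        ∑ h ∈ Ord (S.erase a), if NotStopped A (h ++ [a]) then (1 : ℝ) else 0 := by
      intro a ha h1
      refine (ih _ (hce a ha) fun x hx => hM x (mem_of_mem_erase hx)).trans
        (le_of_eq (sum_congr rfl fun h hh => if_congr ?_ rfl rfl))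
      rw [notStopped_append_iff]
      refine (and_iff_left ?_).symm
      by_contra hc
      obtain ⟨h2, h3⟩ := hA h a (hM a ha) (by simpa using hc)
      rw [length_of_mem_Ord hh, hce a ha] at h3
      by_cases e : a = S.max' hne
      · exact absurd (h1 e) (by omega)
      · exact e (le_antisymm (S.le_max' a ha) ((le_mx ((mem_of_Ord hh).2
          (mem_erase.2 ⟨fun c => e c.symm, htm⟩))).trans h2))
    rw [sum_Ord_succ hne, ← sum_erase_add _ _ htm, Nat.factorial_succ]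
    have h1 := card_nsmul_le_sum (S.erase (S.max' hne)) _ _ fun a ha =>
      key a (mem_of_mem_erase ha) fun e => absurd e (ne_of_mem_erase ha)
    rw [hce _ htm, nsmul_eq_mul] at h1
    have h2 := uu_succ r k
    have h3 : (if k < r then 1 else 0) * ((k.factorial : ℝ) * uu r k) ≤
        ∑ h ∈ Ord (S.erase (S.max' hne)),
          if NotStopped A (h ++ [S.max' hne]) then (1 : ℝ) else 0 := by
      split_ifs with c
      · rw [one_mul]; exact key _ htm fun _ => c
      · rw [zero_mul]; exact sum_nonneg fun _ _ => by positivity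
    push_cast
    calc _ = (k.factorial : ℝ) * ((k + 1 : ℝ) * uu r (k + 1)) := by ring
      _ = _ := by rw [h2]
      _ ≤ _ := by linarith

open Classical in
lemma count_win {A : List ℕ → Bool} {q r M : ℕ}
    (hA : ∀ h a, a < M → A (h ++ [a]) = true → mx h ≤ a ∧ r ≤ h.length)
    (hM : ∀ h, mx h ≤ M → q ≤ h.length → A (h ++ [M]) = true) :
    ∀ (k : ℕ) (S : Finset ℕ), S.card = k → M ∈ S → (∀ x ∈ S, x ≤ M) →
      (k.factorial : ℝ) * ∑ i ∈ Ico q k, uu r i ≤
        k * ∑ l ∈ Ord S, if Wins A l then (1 : ℝ) else 0 := by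
  intro k
  induction k with
  | zero => intro S hS; simp
  | succ k ih =>
    intro S hS htm hle
    have hce : ∀ a ∈ S, (S.erase a).card = k := fun a ha => by
      rw [card_erase_of_mem ha, hS]; rfl
    rw [sum_Ord_succ ⟨M, htm⟩, ← sum_erase_add _ _ htm, Nat.factorial_succ]
    have h1 : ∀ a ∈ S.erase M, (k.factorial : ℝ) * ∑ i ∈ Ico q k, uu r i ≤
        k * ∑ h ∈ Ord (S.erase a), if Wins A (h ++ [a]) then (1 : ℝ) else 0 := by
      intro a ha
      obtain ⟨e, ha⟩ := mem_erase.1 ha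
      have m : M ∈ S.erase a := mem_erase.2 ⟨e.symm, htm⟩
      refine (ih _ (hce a ha) m fun x hx => hle x (mem_of_mem_erase hx)).trans ?_
      gcongr with h hh
      split_ifs with c1 c2
      · exact le_rfl
      · exact absurd ((wins_append_iff A h a).2 (Or.inl
          ⟨c1, (hle a ha).trans (le_mx ((mem_of_Ord hh).2 m))⟩)) c2
      all_goals norm_num
    have h2 := card_nsmul_le_sum _ _ _ h1
    rw [hce _ htm, nsmul_eq_mul, ← mul_sum] at h2
    have h3 : (k.factorial : ℝ) * ∑ i ∈ Ico q k, uu r i ≤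
        ∑ a ∈ S.erase M, ∑ h ∈ Ord (S.erase a), if Wins A (h ++ [a]) then (1 : ℝ) else 0 := by
      rcases Nat.eq_zero_or_pos k with rfl | c
      · rw [Ico_eq_empty (by omega), sum_empty, mul_zero]
        exact sum_nonneg fun _ _ => sum_nonneg fun _ _ => by positivity
      · exact le_of_mul_le_mul_left h2 (by exact_mod_cast c)
    have h4 : (k.factorial : ℝ) * ∑ i ∈ Ico q (k + 1), uu r i ≤
        (k.factorial : ℝ) * ∑ i ∈ Ico q k, uu r i +
          ∑ h ∈ Ord (S.erase M), if Wins A (h ++ [M]) then (1 : ℝ) else 0 := by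
      by_cases c : q ≤ k
      · rw [sum_Ico_succ_top c, mul_add]
        refine add_le_add le_rfl ((count_ns hA k _ (hce _ htm) fun x hx =>
          lt_of_le_of_ne (hle x (mem_of_mem_erase hx)) (ne_of_mem_erase hx)).trans
            (sum_le_sum fun h hh => ?_))
        have m : mx h ≤ M := mx_le.2 fun x hx => hle x (mem_of_mem_erase ((mem_of_Ord hh).1 hx))
        split_ifs with c1 c2
        · exact le_rfl
        · exact absurd ((wins_append_iff A h M).2 (Or.inr ⟨c1, hM h m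
            (by rwa [length_of_mem_Ord hh, hce _ htm]), m⟩)) c2
        all_goals norm_num
      · rw [Ico_eq_empty (by omega), Ico_eq_empty (by omega), sum_empty, mul_zero, zero_add]
        exact sum_nonneg fun _ _ => by positivity
    push_cast
    rw [mul_assoc]
    exact mul_le_mul_of_nonneg_left (by linarith) (by positivity)

lemma sum_uu {r : ℕ} (hr : 1 ≤ r) : ∀ n, r ≤ n →
    (r : ℝ) * Real.log (n / r) + (1 - r / n) / 2 ≤ ∑ i ∈ Ico r n, uu r i := by
  have r0 : (0 : ℝ) < r := by exact_mod_cast hr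
  intro n hn
  induction n, hn using Nat.le_induction with
  | base => simp [r0.ne']
  | succ n hn ih =>
    have n0 : (0 : ℝ) < n := by exact_mod_cast hr.trans hn
    have e : uu r n = r / n := by
      unfold uu
      split_ifs with c
      · rw [le_antisymm hn c, div_self n0.ne']
      · rfl
    have h := Real.self_le_sinh_iff.2 (Real.log_nonneg
      (show 1 ≤ ((n : ℝ) + 1) / n by rw [le_div_iff₀ n0]; linarith))
    rw [Real.sinh_log (by positivity)] at h
    have k : (r : ℝ) * ((((n : ℝ) + 1) / n - (((n : ℝ) + 1) / n)⁻¹) / 2) =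
        r / n - (r / n - r / (n + 1)) / 2 := by
      field_simp
      ring
    push_cast
    rw [sum_Ico_succ_top hn, e, show ((n : ℝ) + 1) / r = n / r * ((n + 1) / n) by field_simp,
      Real.log_mul (by positivity) (by positivity), mul_add]
    linarith [mul_le_mul_of_nonneg_left h r0.le]

lemma sum_uu_ge {r n : ℕ} (hr : 1 ≤ r) (hn : r ≤ n) {δ : ℝ}
    (h1 : 1 / Real.exp 1 - δ ≤ (r : ℝ) / n) (h2 : (r : ℝ) / n ≤ 1 / Real.exp 1 + δ) :
    (1 / Real.exp 1 - 3 * δ ^ 2) * n + (1 - r / n) / 2 ≤ ∑ i ∈ Ico r n, uu r i := by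
  have r0 : (0 : ℝ) < r := by exact_mod_cast hr
  have n0 : (0 : ℝ) < n := by exact_mod_cast hr.trans hn
  have e0 := Real.exp_pos 1
  have e3 : Real.exp 1 ≤ 3 := by linarith [Real.exp_one_lt_d9]
  refine le_trans (add_le_add ?_ le_rfl) (sum_uu hr n hn)
  have h := Real.log_le_sub_one_of_pos (show 0 < Real.exp 1 * (r / n) by positivity)
  rw [Real.log_mul e0.ne' (by positivity), Real.log_exp, ← inv_div, Real.log_inv] at h
  rw [inv_div] at h
  have a : ((r : ℝ) / n - 1 / Real.exp 1) ^ 2 ≤ δ ^ 2 := sq_le_sq' (by linarith) (by linarith)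
  have b : (r : ℝ) / n * (2 - Real.exp 1 * (r / n)) =
      1 / Real.exp 1 - Real.exp 1 * ((r : ℝ) / n - 1 / Real.exp 1) ^ 2 := by
    field_simp
    ring
  have c : (r : ℝ) / n * (2 - Real.exp 1 * (r / n)) ≤ r / n * Real.log (n / r) := by
    gcongr; linarith
  have d : Real.exp 1 * ((r : ℝ) / n - 1 / Real.exp 1) ^ 2 ≤ 3 * δ ^ 2 := by gcongr
  calc _ ≤ (r / n * Real.log (n / r)) * n := by gcongr; linarith
    _ = _ := by field_simp

lemma inv_e_bounds : 1 / 3 ≤ 1 / Real.exp 1 ∧ 1 / Real.exp 1 ≤ 2 / 5 := by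
  have e0 := Real.exp_pos 1
  rw [div_le_div_iff₀ (by norm_num) e0, div_le_div_iff₀ e0 (by norm_num)]
  constructor <;> linarith [Real.exp_one_gt_d9, Real.exp_one_lt_d9]

/-- the classical rule wins with probability at least `1 / e + 1 / (20 n)` -/
lemma exists_uu {n : ℕ} (n0 : 1 ≤ n) : ∃ r ≤ n,
    (1 / Real.exp 1 + 1 / 20 * (1 / n)) * n ≤ ∑ i ∈ Ico r n, uu r i := by
  obtain ⟨e0, e1⟩ := inv_e_bounds
  by_cases n4 : n < 4
  · refine ⟨n / 2, by omega, ?_⟩
    interval_cases n <;> norm_num [uu, sum_Ico_succ_top] at e1 ⊢ <;> linarith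
  have n5 : (4 : ℝ) ≤ n := by exact_mod_cast not_lt.1 n4
  have n1 : (0 : ℝ) < n := by linarith
  have i0 : 1 / (n : ℝ) ≤ 1 / 4 := by gcongr
  have i1 : 1 / (n : ℝ) * n = 1 := one_div_mul_cancel n1.ne'
  have p : 0 < 1 / Real.exp 1 * n - 1 / 2 := by nlinarith
  obtain ⟨q, q0, q1, q2⟩ : ∃ q : ℕ, 1 ≤ q ∧ 1 / Real.exp 1 - 1 / n / 2 ≤ (q : ℝ) / n ∧
      (q : ℝ) / n ≤ 1 / Real.exp 1 + 1 / n / 2 :=
    ⟨⌈1 / Real.exp 1 * n - 1 / 2⌉₊, Nat.ceil_pos.2 p, by
      rw [le_div_iff₀ n1]; linarith [Nat.le_ceil (1 / Real.exp 1 * n - 1 / 2)], by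
      rw [div_le_iff₀ n1]; linarith [Nat.ceil_lt_add_one p.le]⟩
  have hn : q ≤ n := by
    have : (q : ℝ) / n ≤ 1 := by linarith
    exact_mod_cast (div_le_one n1).1 this
  refine ⟨q, hn, le_trans ?_ (sum_uu_ge q0 hn q1 q2)⟩
  have : (1 / (n : ℝ) / 2) ^ 2 * n = 1 / n / 4 := by field_simp; norm_num
  nlinarith

open Classical in
/-- stop on a record after `r` arrivals, and already after `q` arrivals if it is at least `w` -/
noncomputable def rule₂ (q r w : ℕ) (l : List ℕ) : Bool :=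
  decide (IsRec l ∧ (r < l.length ∨ q < l.length ∧ w ≤ mx l))

lemma rule₂_append (q r w : ℕ) (h : List ℕ) (a : ℕ) :
    rule₂ q r w (h ++ [a]) = true ↔ mx h ≤ a ∧ (r ≤ h.length ∨ q ≤ h.length ∧ w ≤ a) := by
  unfold rule₂
  simp only [decide_eq_true_eq, isRec_append, mx_append, List.length_append, List.length_singleton,
    Nat.lt_succ_iff]
  exact and_congr_right fun c => by rw [max_eq_right c]

open Classical in
lemma rule₂_wins {q d w n : ℕ} {m : ℝ} (hn : q + d ≤ n) (n0 : 1 ≤ n)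
    (h1 : m * n ≤ ∑ i ∈ Ico q n, uu q i) (h2 : m * n ≤ ∑ i ∈ Ico (q + d) n, uu (q + d) i)
    {S : Finset ℕ} (hS : S.card = n) :
    m + (if S.sup id = w then (d : ℝ) / n else 0) ≤
      (∑ l ∈ Ord S, if Wins (rule₂ q (q + d) w) l then (1 : ℝ) else 0) / n.factorial := by
  have n1 : (0 : ℝ) < n := by exact_mod_cast n0
  have f0 : (0 : ℝ) < n.factorial := by exact_mod_cast n.factorial_pos
  obtain ⟨M, hM, e⟩ := exists_mem_eq_sup S (card_pos.1 (by omega)) id
  have hle : ∀ x ∈ S, x ≤ M := fun x hx => (le_sup (f := id) hx).trans e.le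
  suffices H : ∃ a b, (m + (if M = w then (d : ℝ) / n else 0)) * n ≤ ∑ i ∈ Ico a n, uu b i ∧
      (∀ h x, x < M → rule₂ q (q + d) w (h ++ [x]) = true → mx h ≤ x ∧ b ≤ h.length) ∧
      ∀ h, mx h ≤ M → a ≤ h.length → rule₂ q (q + d) w (h ++ [M]) = true by
    obtain ⟨a, b, k1, k2, k3⟩ := H
    have := count_win k2 k3 n S hS hM hle
    rw [e, le_div_iff₀ f0]
    exact le_of_mul_le_mul_left (by simp only [id]; nlinarith) n1
  simp only [rule₂_append]
  rcases lt_trichotomy M w with c | rfl | c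
  · exact ⟨q + d, q + d, by simpa [c.ne] using h2, fun h x _ k => ⟨k.1, by omega⟩,
      fun h k1 k2 => ⟨k1, Or.inl k2⟩⟩
  · refine ⟨q, q + d, ?_, fun h x _ k => ⟨k.1, by omega⟩, fun h k1 k2 => ⟨k1, Or.inr ⟨k2, le_rfl⟩⟩⟩
    rw [← sum_Ico_consecutive _ (Nat.le_add_right q d) hn, sum_congr rfl (f := uu (q + d))
      (g := fun _ => 1) fun i hi => if_pos (mem_Ico.1 hi).2.le, if_pos rfl, add_mul,
      div_mul_cancel₀ _ n1.ne']
    simp only [sum_const, Nat.card_Ico, Nat.add_sub_cancel_left, nsmul_eq_mul, mul_one]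
    linarith
  · exact ⟨q, q, by simpa [c.ne'] using h1, fun h x _ k => ⟨k.1, by omega⟩,
      fun h k1 k2 => ⟨k1, Or.inr ⟨k2, c.le⟩⟩⟩

open MeasureTheory

open Classical in
lemma winProb_det (A : List ℕ → Bool) (n N : ℕ) (D : Finset ℕ → ℝ) :
    winProb (Measure.dirac ()) (fun _ : Unit => A) n N D = ∑ S ∈ (Icc 1 N).powersetCard n,
      D S * ((∑ l ∈ Ord S, if Wins A l then (1 : ℝ) else 0) / n.factorial) := by
  refine sum_congr rfl fun S _ => ?_
  congr 2
  refine sum_congr rfl fun l _ => ?_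
  by_cases hw : Wins A l <;> simp [hw]

theorem lower {n L : ℕ} (n0 : 1 ≤ n) {D : Finset ℕ → ℝ} (hD : IsInstance n (n + L) D) :
    ∃ A : List ℕ → Bool, 1 / Real.exp 1 + 1 / (24 * ((L : ℝ) + 1) ^ 2) - 24 / (n : ℝ) ^ 2 ≤
      winProb (Measure.dirac ()) (fun _ : Unit => A) n (n + L) D := by
  classical
  have n1 : (0 : ℝ) < n := by exact_mod_cast n0
  have e0 := Real.exp_pos 1
  have e1 := inv_e_bounds.2
  have l0 : (0 : ℝ) ≤ L := L.cast_nonneg
  obtain ⟨η, hη⟩ : ∃ η : ℝ, η = 1 / (12 * (L + 1)) := ⟨_, rfl⟩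
  have η0 : 0 < η := by rw [hη]; positivity
  have η1 : η ≤ 1 / 12 := by rw [hη]; gcongr; linarith
  have η2 : 1 / (24 * ((L : ℝ) + 1) ^ 2) = 6 * η ^ 2 := by rw [hη]; field_simp; norm_num
  by_cases n4 : n ≤ 4
  · refine ⟨fun _ => true, le_trans ?_ (sum_nonneg fun S _ => mul_nonneg (hD.1 S) (by positivity))⟩
    have : (n : ℝ) ≤ 4 := by exact_mod_cast n4
    have : 1 ≤ 24 / (n : ℝ) ^ 2 := by rw [le_div_iff₀ (by positivity)]; nlinarith
    nlinarith
  have n5 : (5 : ℝ) ≤ n := by exact_mod_cast not_le.1 n4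
  have i0 : 1 / (n : ℝ) ≤ 1 / 5 := by gcongr
  have i1 : 0 < 1 / (n : ℝ) := by positivity
  obtain ⟨q, q0, q1, q2⟩ : ∃ q : ℕ, 1 ≤ q ∧ 1 / Real.exp 1 ≤ (q : ℝ) / n ∧
      (q : ℝ) / n ≤ 1 / Real.exp 1 + 1 / n :=
    ⟨⌈1 / Real.exp 1 * n⌉₊, Nat.ceil_pos.2 (by positivity), (le_div_iff₀ n1).2 (Nat.le_ceil _), by
      rw [div_le_iff₀ n1, add_mul, one_div_mul_cancel n1.ne']
      exact (Nat.ceil_lt_add_one (by positivity)).le⟩
  obtain ⟨d, d1, d2⟩ : ∃ d : ℕ, η ≤ (d : ℝ) / n ∧ (d : ℝ) / n ≤ η + 1 / n :=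
    ⟨⌈η * n⌉₊, (le_div_iff₀ n1).2 (Nat.le_ceil _), by
      rw [div_le_iff₀ n1, add_mul, one_div_mul_cancel n1.ne']
      exact (Nat.ceil_lt_add_one (by positivity)).le⟩
  have s : ((q + d : ℕ) : ℝ) / n = q / n + d / n := by push_cast; ring
  have hn : q + d ≤ n := by
    have : ((q + d : ℕ) : ℝ) / n ≤ 1 := by linarith
    exact_mod_cast (div_le_one n1).1 this
  have h1 := (le_add_of_nonneg_right (by linarith)).trans
    (sum_uu_ge (δ := η + 2 * (1 / n)) q0 (by omega : q ≤ n) (by linarith) (by linarith))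
  have h2 := (le_add_of_nonneg_right (by linarith)).trans
    (sum_uu_ge (δ := η + 2 * (1 / n)) (by omega) hn (by linarith) (by linarith))
  set m := 1 / Real.exp 1 - 3 * (η + 2 * (1 / (n : ℝ))) ^ 2 with hm
  obtain ⟨w, -, hw⟩ := exists_le_of_sum_le (s := Icc n (n + L)) ⟨n, by simp⟩
    (f := fun _ => m + 12 * η ^ 2)
    (g := fun w => winProb (Measure.dirac ()) (fun _ : Unit => rule₂ q (q + d) w) n (n + L) D) (by
      simp only [winProb_det]
      rw [sum_comm]
      refine le_trans (le_of_eq (by rw [← sum_mul, hD.2.2, one_mul])) (sum_le_sum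
        (f := fun S => D S * ∑ _ ∈ Icc n (n + L), (m + 12 * η ^ 2)) fun S hS => ?_)
      rw [← mul_sum]
      obtain ⟨k1, k2⟩ := mem_powersetCard.1 hS
      refine mul_le_mul_of_nonneg_left (le_trans ?_
        (sum_le_sum fun w _ => rule₂_wins hn n0 h1 h2 k2)) (hD.1 S)
      have k3 : S.sup id ∈ Icc n (n + L) := by
        refine mem_Icc.2 ⟨?_, Finset.sup_le fun x hx => (mem_Icc.1 (k1 hx)).2⟩
        have := card_le_card (show S ⊆ Icc 1 (S.sup id) from fun x hx =>
          mem_Icc.2 ⟨(mem_Icc.1 (k1 hx)).1, le_sup (f := id) hx⟩)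
        simpa [k2] using this
      rw [sum_add_distrib, sum_add_distrib, sum_ite_eq, if_pos k3]
      refine add_le_add le_rfl (le_trans (le_of_eq ?_) d1)
      rw [sum_const, Nat.card_Icc, show n + L + 1 - n = L + 1 by omega, nsmul_eq_mul, hη]
      push_cast
      field_simp)
  refine ⟨_, le_trans ?_ hw⟩
  rw [η2, hm, show 24 / (n : ℝ) ^ 2 = 24 * (1 / n) ^ 2 by field_simp]
  nlinarith [sq_nonneg (η - 2 * (1 / (n : ℝ)))]

theorem lower_ord {n N : ℕ} (n0 : 1 ≤ n) {D : Finset ℕ → ℝ} (hD : IsInstance n N D) :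
    ∃ A : List ℕ → Bool, 1 / Real.exp 1 + 1 / 20 * (1 / n) ≤
      winProb (Measure.dirac ()) (fun _ : Unit => A) n N D := by
  obtain ⟨r, hr, h⟩ := exists_uu n0
  refine ⟨rule₂ r (r + 0) 0, ?_⟩
  rw [winProb_det]
  refine le_trans (le_of_eq (by rw [← sum_mul, hD.2.2, one_mul])) (sum_le_sum
    (f := fun S => D S * (1 / Real.exp 1 + 1 / 20 * (1 / n))) fun S hS =>
      mul_le_mul_of_nonneg_left ?_ (hD.1 S))
  simpa using rule₂_wins (d := 0) (w := 0) hr n0 h h (mem_powersetCard.1 hS).2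

/-- every instance leaves an advantage of order `1 / (L + 1) ^ 2 + 1 / n` over `1 / e` -/
theorem lower_sharp {n L : ℕ} (n0 : 1 ≤ n) {D : Finset ℕ → ℝ} (hD : IsInstance n (n + L) D) :
    ∃ A : List ℕ → Bool, 1 / Real.exp 1 + 1 / 25000 * (1 / ((L : ℝ) + 1) ^ 2 + 1 / n) ≤
      winProb (Measure.dirac ()) (fun _ : Unit => A) n (n + L) D := by
  have n1 : (1 : ℝ) ≤ n := by exact_mod_cast n0
  have b0 : 0 < 1 / (n : ℝ) := by positivity
  by_cases c : 1 / ((L : ℝ) + 1) ^ 2 ≤ 1152 * (1 / n)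
  · obtain ⟨A, h⟩ := lower_ord n0 hD
    exact ⟨A, by linarith⟩
  · obtain ⟨A, h⟩ := lower n0 hD
    have e : 1 / (24 * ((L : ℝ) + 1) ^ 2) = 1 / 24 * (1 / ((L : ℝ) + 1) ^ 2) := by field_simp
    have f : 24 / (n : ℝ) ^ 2 ≤ 24 * (1 / n) := by
      rw [mul_one_div]; gcongr; nlinarith
    exact ⟨A, by linarith⟩

end Pool.Agent.Lib.MP_d38296_lc
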