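import Pool.Agent.Lib.MP_d38296_lc.Main

/-! Coarse-graining on a logarithmic scale, and the probability of a collision. -/

namespace Pool.Agent.Lib.MP_d38296_lc

open Finset

/-- the index of the bin of `x`: every dyadic block is cut into `K` equal parts -/
def kap (K x : ℕ) : ℕ := Nat.log 2 x * K + x * K / 2 ^ Nat.log 2 x

lemma kap_low {K x : ℕ} (hx : 1 ≤ x) : K ≤ x * K / 2 ^ Nat.log 2 x := by
  rw [Nat.le_div_iff_mul_le (by positivity), mul_comm]
  exact Nat.mul_le_mul_right _ (Nat.pow_log_le_self 2 (by omega))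

lemma kap_high {K x : ℕ} (hK : 1 ≤ K) : x * K / 2 ^ Nat.log 2 x < 2 * K := by
  rw [Nat.div_lt_iff_lt_mul (by positivity)]
  have := Nat.lt_pow_succ_log_self (b := 2) (by norm_num) x
  rw [Nat.succ_eq_add_one, pow_succ] at this
  calc x * K < (2 ^ Nat.log 2 x * 2) * K := Nat.mul_lt_mul_of_pos_right this hK
    _ = _ := by ring

lemma kap_lt {K x y : ℕ} (hK : 1 ≤ K) (hy : 1 ≤ y) (h : Nat.log 2 x < Nat.log 2 y) :
    kap K x < kap K y := by
  have h1 := kap_high (x := x) hK
  have h2 := kap_low (K := K) hy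
  have h3 : (Nat.log 2 x + 1) * K ≤ Nat.log 2 y * K := Nat.mul_le_mul_right _ h
  unfold kap
  rw [add_mul] at h3
  omega

lemma kap_mono {K x y : ℕ} (hK : 1 ≤ K) (hx : 1 ≤ x) (h : x ≤ y) : kap K x ≤ kap K y := by
  rcases (Nat.log_mono_right (b := 2) h).lt_or_eq with h1 | h1
  · exact (kap_lt hK (hx.trans h) h1).le
  · unfold kap
    rw [h1]
    exact Nat.add_le_add_left (Nat.div_le_div_right (Nat.mul_le_mul_right _ h)) _

lemma kap_pos {K x : ℕ} (hK : 1 ≤ K) (hx : 1 ≤ x) : 1 ≤ kap K x := by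
  have := kap_low (K := K) hx
  unfold kap
  omega

lemma kap_le {K x : ℕ} (hK : 1 ≤ K) : kap K x ≤ (Nat.log 2 x + 2) * K := by
  have := kap_high (x := x) hK
  unfold kap
  rw [add_mul]
  omega

lemma kap_close {K a x : ℕ} (hK : 1 ≤ K) (ha : 1 ≤ a) (hx : 1 ≤ x) (h : kap K a = kap K x) :
    x - x / K ≤ a ∧ a ≤ x + x / K := by
  have ht : Nat.log 2 a = Nat.log 2 x := by
    rcases lt_trichotomy (Nat.log 2 a) (Nat.log 2 x) with h1 | h1 | h1
    · exact absurd h (kap_lt hK hx h1).ne
    · exact h1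
    · exact absurd h (kap_lt hK ha h1).ne'
  unfold kap at h
  rw [ht] at h
  have h1 : a * K / 2 ^ Nat.log 2 x = x * K / 2 ^ Nat.log 2 x := by omega
  have hP : 2 ^ Nat.log 2 x ≤ x := Nat.pow_log_le_self 2 (by omega)
  have hP0 : 0 < 2 ^ Nat.log 2 x := by positivity
  generalize 2 ^ Nat.log 2 x = P at h1 hP hP0
  have e1 := Nat.div_add_mod (a * K) P
  have e2 := Nat.div_add_mod (x * K) P
  have m1 := Nat.mod_lt (a * K) hP0
  have m2 := Nat.mod_lt (x * K) hP0
  rw [h1] at e1
  constructor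
  · have : x - a ≤ x / K := by
      rw [Nat.le_div_iff_mul_le hK, Nat.sub_mul]
      omega
    omega
  · have : a - x ≤ x / K := by
      rw [Nat.le_div_iff_mul_le hK, Nat.sub_mul]
      omega
    omega

lemma card_close {N K k T : ℕ} (hK : 1 ≤ K) {h : List ℕ} (hh : h ∈ LL N k) (hT : mx h ≤ T) :
    (((Icc 1 N).filter (fun a => a ∉ h)).filter (fun a => kap K a ∈ h.map (kap K))).card ≤
      k * (2 * (T / K)) := by
  rw [mem_LL] at hh
  obtain ⟨h1, h2, h3⟩ := hh
  calc _ ≤ (h.toFinset.biUnion fun x => (Icc (x - x / K) (x + x / K)).erase x).card := by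
        refine card_le_card fun a ha => ?_
        simp only [mem_filter, mem_Icc, List.mem_map] at ha
        obtain ⟨⟨⟨ha1, -⟩, ha2⟩, x, hx, hxa⟩ := ha
        have hx1 := (mem_Icc.1 (h3 x hx)).1
        rw [mem_biUnion]
        refine ⟨x, List.mem_toFinset.2 hx, ?_⟩
        rw [mem_erase, mem_Icc]
        exact ⟨fun hc => ha2 (hc ▸ hx), kap_close hK ha1 hx1 hxa.symm⟩
    _ ≤ h.toFinset.card * (2 * (T / K)) := by
        refine card_biUnion_le_card_mul _ _ _ fun x hx => ?_
        have hxT : x ≤ T := (le_mx (List.mem_toFinset.1 hx)).trans hT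
        have h4 : x / K ≤ T / K := Nat.div_le_div_right hxT
        generalize x / K = q at h4 ⊢
        rw [card_erase_of_mem (by rw [mem_Icc]; omega), Nat.card_Icc]
        omega
    _ = _ := by rw [List.toFinset_card_of_nodup h2, h1]

/-- the mass of a history -/
noncomputable def ms (n k : ℕ) (h : List ℕ) : ℝ := mw k (max (mx h) n)

lemma ms_nonneg (n k : ℕ) (h : List ℕ) : 0 ≤ ms n k h := mw_nonneg _ _

lemma mw_anti {k T U : ℕ} (hk : 1 ≤ k) (hT : k ≤ T) (h : T ≤ U) : mw k U ≤ mw k T := by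
  have h1 : (0 : ℝ) < (T.descFactorial k : ℝ) := by
    exact_mod_cast Nat.descFactorial_pos.2 hT
  have h2 : (T.descFactorial k : ℝ) ≤ (U.descFactorial k : ℝ) := by
    exact_mod_cast Nat.descFactorial_le k h
  have hk' : (0 : ℝ) < k := by exact_mod_cast hk
  unfold mw
  gcongr

lemma ms_step {N n k : ℕ} (hk : 1 ≤ k) {h : List ℕ} (hh : h ∈ LL N k) :
    ∑ a ∈ (Icc 1 N).filter (fun a => a ∉ h), ms n (k + 1) (h ++ [a]) ≤ ms n k h := by
  have := step (T := max (mx h) n) hh hk (le_max_left _ _) zero_le_one zero_le_one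
    (fun a => ms n (k + 1) (h ++ [a]))
    (fun a _ ha => by
      have : max (max (mx h) a) n = max (mx h) n := by omega
      simp only [ms, mx_append, this, one_mul, le_refl])
    (fun a ha => by
      have : max (max (mx h) a) n = a := by omega
      simp only [ms, mx_append, this, one_mul, le_refl])
  have hk1 : (0 : ℝ) < (k : ℝ) + 1 := by positivity
  rwa [mul_one, div_self hk1.ne', one_mul] at this

lemma ms_new {N n k K : ℕ} (hk : 1 ≤ k) (hkn : k < n) (hK : 2 * n ≤ K) {h : List ℕ}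
    (hh : h ∈ LL N k) :
    ∑ a ∈ ((Icc 1 N).filter (fun a => a ∉ h)).filter (fun a => kap K a ∈ h.map (kap K)),
      ms n (k + 1) (h ++ [a]) ≤ 4 * n / K * ms n k h := by
  set T := max (mx h) n with hTdef
  have hT1 : mx h ≤ T := le_max_left _ _
  have hT2 : n ≤ T := le_max_right _ _
  have hK0 : (0 : ℝ) < K := by exact_mod_cast (show 0 < K by omega)
  have hc := card_close (K := K) (by omega) hh hT1
  have h1 : ∑ a ∈ ((Icc 1 N).filter (fun a => a ∉ h)).filter (fun a => kap K a ∈ h.map (kap K)),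
      ms n (k + 1) (h ++ [a]) ≤ ((k * (2 * (T / K)) : ℕ) : ℝ) * mw (k + 1) T := by
    refine (sum_le_card_nsmul _ _ (mw (k + 1) T) fun a _ => ?_).trans ?_
    · unfold ms
      rw [mx_append]
      exact mw_anti (by omega) (by omega) (by omega)
    · rw [nsmul_eq_mul]
      exact mul_le_mul_of_nonneg_right (by exact_mod_cast hc) (mw_nonneg _ _)
  refine h1.trans ?_
  have m0 := mw_nonneg k T
  have m1 := mw_nonneg (k + 1) T
  by_cases hTK : T < K
  · rw [Nat.div_eq_of_lt hTK]
    simp only [mul_zero, Nat.cast_zero, zero_mul]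
    unfold ms
    positivity
  · have h2 := low_le (k := k) (T := T) hk (by omega)
    have h3 : (k : ℝ) / (k + 1) ≤ 1 := by
      rw [div_le_one (by positivity)]; linarith
    have h4 : ((T - k : ℕ) : ℝ) * mw (k + 1) T ≤ mw k T :=
      h2.trans (mul_le_of_le_one_left m0 h3)
    have h5 : (T : ℝ) ≤ 2 * ((T - k : ℕ) : ℝ) := by
      exact_mod_cast (show T ≤ 2 * (T - k) by omega)
    have h6 : ((T / K : ℕ) : ℝ) ≤ (T : ℝ) / K := Nat.cast_div_le
    have h7 : (k : ℝ) ≤ n := by exact_mod_cast hkn.le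
    have h8 : ((k * (2 * (T / K)) : ℕ) : ℝ) ≤ 4 * n / K * ((T - k : ℕ) : ℝ) := by
      push_cast
      calc (k : ℝ) * (2 * ((T / K : ℕ) : ℝ)) ≤ n * (2 * ((2 * ((T - k : ℕ) : ℝ)) / K)) := by
            gcongr
            exact h6.trans (by gcongr)
        _ = _ := by ring
    calc _ ≤ 4 * n / K * ((T - k : ℕ) : ℝ) * mw (k + 1) T := mul_le_mul_of_nonneg_right h8 m1
      _ = 4 * n / K * (((T - k : ℕ) : ℝ) * mw (k + 1) T) := by ring
      _ ≤ _ := mul_le_mul_of_nonneg_left h4 (by positivity)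

/-- the potential for collisions -/
noncomputable def cp (n K k : ℕ) (h : List ℕ) : ℝ :=
  ms n k h * ((if (h.map (kap K)).Nodup then 0 else 1) + ((n : ℝ) - k) * (4 * n / K))

lemma cp_step {N n k K : ℕ} (hk : 1 ≤ k) (hkn : k < n) (hK : 2 * n ≤ K) {h : List ℕ}
    (hh : h ∈ LL N k) :
    ∑ a ∈ (Icc 1 N).filter (fun a => a ∉ h), cp n K (k + 1) (h ++ [a]) ≤ cp n K k h := by
  have h1 := ms_step (n := n) hk hh
  have h2 := ms_new hk hkn hK hh
  have m0 := ms_nonneg n k h
  have c0 : (0 : ℝ) ≤ 4 * n / K := by positivity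
  have h7 : (k : ℝ) + 1 ≤ n := by exact_mod_cast hkn
  have c1 : (0 : ℝ) ≤ ((n : ℝ) - (k + 1)) * (4 * n / K) := mul_nonneg (by linarith) c0
  unfold cp
  simp only [mul_add, sum_add_distrib]
  push_cast
  rw [← sum_mul]
  have h3 := mul_le_mul_of_nonneg_right h1 c1
  by_cases hc : (h.map (kap K)).Nodup
  · have h4 : ∑ a ∈ (Icc 1 N).filter (fun a => a ∉ h), ms n (k + 1) (h ++ [a]) *
        (if ((h ++ [a]).map (kap K)).Nodup then (0 : ℝ) else 1) ≤ 4 * n / K * ms n k h := by
      refine le_trans (le_of_eq ?_) h2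
      rw [sum_filter (s := (Icc 1 N).filter (fun a => a ∉ h))]
      refine sum_congr rfl fun a _ => ?_
      have : ((h ++ [a]).map (kap K)).Nodup ↔ ¬ kap K a ∈ h.map (kap K) := by
        rw [List.map_append, List.nodup_append]
        constructor
        · intro h5 h6
          exact h5.2.2 _ h6 (kap K a) (by simp) rfl
        · intro h5
          refine ⟨hc, by simp, ?_⟩
          intro x hx y hy
          have : y = kap K a := by simpa using hy
          rw [this]
          rintro rfl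
          exact h5 hx
      by_cases h6 : kap K a ∈ h.map (kap K)
      · rw [if_neg (by rw [this]; exact not_not.2 h6), if_pos h6, mul_one]
      · rw [if_pos (this.2 h6), if_neg h6, mul_zero]
    rw [if_pos hc]
    linarith
  · have h4 : ∑ a ∈ (Icc 1 N).filter (fun a => a ∉ h), ms n (k + 1) (h ++ [a]) *
        (if ((h ++ [a]).map (kap K)).Nodup then (0 : ℝ) else 1) ≤ ms n k h := by
      refine le_trans (sum_le_sum fun a _ => ?_) h1
      have := ms_nonneg n (k + 1) (h ++ [a])
      split_ifs <;> linarith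
    rw [if_neg hc]
    have := mul_nonneg m0 c0
    linarith

lemma cp_mono {N n K : ℕ} (hK : 2 * n ≤ K) : ∀ j, 1 + j ≤ n →
    ∑ h ∈ LL N (1 + j), cp n K (1 + j) h ≤ ∑ h ∈ LL N 1, cp n K 1 h := by
  intro j
  induction j with
  | zero => intro _; simp
  | succ j ih =>
    intro hj
    refine le_trans ?_ (ih (by omega))
    rw [← add_assoc, sum_LL_succ]
    exact sum_le_sum fun h hh => cp_step (by omega) (by omega) hK hh

lemma ms_start {N n : ℕ} (hn : 1 ≤ n) (hN : n ≤ N) :
    ∑ h ∈ LL N 1, ms n 1 h ≤ ZZ n N + 1 := by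
  have hn' : (0 : ℝ) < n := by exact_mod_cast hn
  have e : (1 : ℝ) = ∑ h ∈ LL N 1, mw 1 n * (if mx h ≤ n then (1 : ℝ) else 0) := by
    rw [← mul_sum, count_le N n hN 1, mw]
    simp only [Nat.cast_one, one_mul, Nat.descFactorial_one]
    field_simp
  rw [e, ← sum_mw (N := N) le_rfl hn, ← sum_add_distrib]
  refine sum_le_sum fun h _ => ?_
  have m2 := mw_nonneg 1 n
  unfold ms
  by_cases hM : n ≤ mx h
  · rw [max_eq_left hM, if_pos hM]
    split_ifs <;> linarith
  · rw [max_eq_right (by omega), if_neg hM, if_pos (by omega)]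
    linarith

/-- the weighted number of arrival sequences with two values in one bin -/
lemma coll_bound {N n K : ℕ} (hn : 1 ≤ n) (hN : n ≤ N) (hK : 2 * n ≤ K) :
    ∑ l ∈ LL N n, (if n ≤ mx l then mw n (mx l) else 0) *
      (if (l.map (kap K)).Nodup then (0 : ℝ) else 1) ≤ 4 * n ^ 2 / K * (ZZ n N + 1) := by
  have h1 := cp_mono (N := N) hK (n - 1) (by omega)
  rw [show 1 + (n - 1) = n by omega] at h1
  have h2 := ms_start hn hN
  have c0 : (0 : ℝ) ≤ 4 * n / K := by positivity
  have hn' : (0 : ℝ) ≤ n := by positivity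
  calc _ ≤ ∑ l ∈ LL N n, cp n K n l := by
        refine sum_le_sum fun l _ => ?_
        unfold cp ms
        rw [sub_self, zero_mul, add_zero]
        refine mul_le_mul_of_nonneg_right ?_ (by split_ifs <;> norm_num)
        by_cases hM : n ≤ mx l
        · rw [if_pos hM, max_eq_left hM]
        · rw [if_neg hM]; exact mw_nonneg _ _
    _ ≤ ∑ h ∈ LL N 1, cp n K 1 h := h1
    _ ≤ ∑ h ∈ LL N 1, ms n 1 h * (n * (4 * n / K)) := by
        refine sum_le_sum fun h hh => ?_
        have hl := ((mem_LL N 1 h).1 hh).1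
        obtain ⟨a, rfl⟩ := List.length_eq_one_iff.1 hl
        unfold cp
        refine mul_le_mul_of_nonneg_left ?_ (ms_nonneg _ _ _)
        rw [if_pos (by simp), zero_add]
        exact mul_le_mul_of_nonneg_right (by simp) c0
    _ = (∑ h ∈ LL N 1, ms n 1 h) * (n * (4 * n / K)) := by rw [sum_mul]
    _ ≤ (ZZ n N + 1) * (n * (4 * n / K)) := mul_le_mul_of_nonneg_right h2 (by positivity)
    _ = _ := by ring

end Pool.Agent.Lib.MP_d38296_lc
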