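import Pool.Agent.Lib.MP_d38296_lc.Defs

/-!
Ordinal rules for the game of googol.
-/

namespace Pool.Agent.Lib.MP_d38296_lc

/-- The deterministic rule `B` is ordinal: its answer depends only on the relative order of the
values seen so far, not on the values themselves. -/
def IsOrdinal (B : List ℕ → Bool) : Prop :=
  ∀ (k : ℕ) (u v : Fin k → ℕ), (∀ i j, u i ≤ u j ↔ v i ≤ v j) →
    B (List.ofFn u) = B (List.ofFn v)

end Pool.Agent.Lib.MP_d38296_lc
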