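import Pool.Agent.Lib.MP_d38296_lc.UOrd
import Pool.Agent.Lib.MP_d38296_lc.UColl

/-! The coarse-grained instance. -/

namespace Pool.Agent.Lib.MP_d38296_lc

open Finset

lemma pot_start_one (A : List ℕ → Bool) {N n : ℕ} (hn : 1 ≤ n) (hN : n ≤ N) :
    ∑ h ∈ LL N 1, pot A n 1 h ≤ Bv n 0 * ZZ n N + 1 := by
  have hn' : (0 : ℝ) < n := by exact_mod_cast hn
  have hB : Bv n 1 ≤ Bv n 0 := by rw [Bv_zero hn]; exact le_max_right _ _
  have hc : ((1 : ℕ) : ℝ) / n ≤ Bv n 0 := by rw [Bv_zero hn, Nat.cast_one]; exact le_max_left _ _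
  have e : (1 : ℝ) = ∑ h ∈ LL N 1, mw 1 n * (if mx h ≤ n then (1 : ℝ) else 0) := by
    rw [← mul_sum, count_le N n hN 1, mw]
    simp only [Nat.cast_one, one_mul, Nat.descFactorial_one]
    field_simp
  rw [e, ← sum_mw (N := N) le_rfl hn, mul_sum, ← sum_add_distrib]
  refine sum_le_sum fun h _ => ?_
  have m1 := mw_nonneg 1 (mx h)
  have m2 := mw_nonneg 1 n
  have hc0 : (0 : ℝ) ≤ Bv n 0 := le_trans (by positivity) hc
  unfold pot QQ PP
  by_cases hM : n ≤ mx h
  · simp only [hM, if_true]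
    have t1 : ((1 : ℕ) : ℝ) / n * mw 1 (mx h) ≤ Bv n 0 * mw 1 (mx h) := by gcongr
    have t2 : Bv n 1 * mw 1 (mx h) ≤ Bv n 0 * mw 1 (mx h) := by gcongr
    have t3 : 0 ≤ Bv n 0 * mw 1 (mx h) := by positivity
    have t4 : 0 ≤ mw 1 n * (if mx h ≤ n then (1 : ℝ) else 0) := by split_ifs <;> positivity
    split_ifs <;> linarith
  · have hM' : mx h ≤ n := by omega
    simp only [hM, hM', if_true, if_false]
    split_ifs <;> linarith

open Classical in
lemma det_bound_one (A : List ℕ → Bool) {N n : ℕ} (hn : 1 ≤ n) (hN : n ≤ N) :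
    ∑ l ∈ LL N n, (if n ≤ mx l then mw n (mx l) else 0) * (if Wins A l then 1 else 0) ≤
      Bv n 0 * ZZ n N + 1 := by
  refine le_trans ?_ (pot_start_one A hn hN)
  have := pot_mono A (N := N) (n := n) (k := 1) le_rfl (n - 1) (by omega)
  rw [show 1 + (n - 1) = n by omega] at this
  refine le_trans (sum_le_sum fun l _ => ?_) this
  have hn' : (0 : ℝ) < n := by exact_mod_cast hn
  unfold pot
  by_cases hw : Wins A l
  · simp only [hw, if_true, QQ, div_self hn'.ne', mul_one, one_mul, le_refl]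
  · have := PP_nonneg (n := n) (k := n) le_rfl (mx l)
    simp only [hw, if_false, mul_zero]
    split_ifs <;> simp [this]

open MeasureTheory

open Classical in
lemma rand_bound_one {Ω : Type*} [MeasurableSpace Ω] (μ : Measure Ω) [IsProbabilityMeasure μ]
    (A : Ω → List ℕ → Bool) (hA : ∀ h, MeasurableSet {ω | A ω h = true})
    {N n : ℕ} (hn : 1 ≤ n) (hN : n ≤ N) :
    ∑ l ∈ LL N n, (if n ≤ mx l then mw n (mx l) else 0) * μ.real {ω | Wins (A ω) l} ≤
      Bv n 0 * ZZ n N + 1 := by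
  have e : ∀ l, μ.real {ω | Wins (A ω) l} = ∫ ω, (if Wins (A ω) l then (1 : ℝ) else 0) ∂μ := by
    intro l
    rw [← integral_indicator_one (measurableSet_wins A hA l)]
    congr 1
  have hint : ∀ l, Integrable (fun ω => (if Wins (A ω) l then (1 : ℝ) else 0)) μ := by
    intro l
    exact (integrable_const (1 : ℝ)).indicator (measurableSet_wins A hA l)
  simp_rw [e, ← integral_const_mul]
  rw [← integral_finsetSum _ (fun l _ => (hint l).const_mul _)]
  calc _ ≤ ∫ _ω, (Bv n 0 * ZZ n N + 1) ∂μ := by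
        refine integral_mono (integrable_finsetSum _ fun l _ => (hint l).const_mul _)
          (integrable_const _) fun ω => det_bound_one (A ω) hn hN
    _ = _ := by simp

open Classical in
/-- the set shown to the algorithm -/
noncomputable def Phi (n K : ℕ) (S : Finset ℕ) : Finset ℕ :=
  if Set.InjOn (kap K) S then S.image (kap K) else Icc 1 n

open Classical in
/-- the coarse-grained instance -/
noncomputable def DU (n M K : ℕ) (T : Finset ℕ) : ℝ :=
  ∑ S ∈ ((Icc 1 M).powersetCard n).filter (fun S => Phi n K S = T), DD n M S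

lemma Phi_mem {n M K N : ℕ} (hK : 1 ≤ K) (hN : n ≤ N) (hMN : (Nat.log 2 M + 2) * K ≤ N)
    {S : Finset ℕ} (hS : S ∈ (Icc 1 M).powersetCard n) :
    Phi n K S ∈ (Icc 1 N).powersetCard n := by
  rw [mem_powersetCard] at hS ⊢
  unfold Phi
  split_ifs with h
  · refine ⟨fun y hy => ?_, by rw [card_image_of_injOn h, hS.2]⟩
    obtain ⟨x, hx, rfl⟩ := mem_image.1 hy
    have hx' := mem_Icc.1 (hS.1 hx)
    rw [mem_Icc]
    refine ⟨kap_pos hK hx'.1, (kap_le hK).trans (le_trans ?_ hMN)⟩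
    exact Nat.mul_le_mul_right _ (Nat.add_le_add_right (Nat.log_mono_right hx'.2) _)
  · exact ⟨Icc_subset_Icc_right hN, by simp⟩

lemma sum_DU {n M K N : ℕ} (hK : 1 ≤ K) (hN : n ≤ N) (hMN : (Nat.log 2 M + 2) * K ≤ N)
    (W : Finset ℕ → ℝ) :
    ∑ T ∈ (Icc 1 N).powersetCard n, DU n M K T * W T =
      ∑ S ∈ (Icc 1 M).powersetCard n, DD n M S * W (Phi n K S) := by
  rw [← sum_fiberwise_of_maps_to (fun S hS => Phi_mem hK hN hMN hS)]
  refine sum_congr rfl fun T _ => ?_
  rw [DU, sum_mul]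
  refine sum_congr (by congr) fun S hS => ?_
  rw [(mem_filter.1 hS).2]

lemma isInstance_DU {n M K N : ℕ} (hn : 1 ≤ n) (hM : n ≤ M) (hK : 1 ≤ K) (hN : n ≤ N)
    (hMN : (Nat.log 2 M + 2) * K ≤ N) : IsInstance n N (DU n M K) := by
  have hD := isInstance_DD hn hM
  refine ⟨fun T => sum_nonneg fun S _ => hD.1 S, fun T hT => ?_, ?_⟩
  · obtain ⟨S, hS, -⟩ := exists_ne_zero_of_sum_ne_zero hT
    rw [mem_filter] at hS
    rw [← hS.2]
    exact mem_powersetCard.1 (Phi_mem hK hN hMN hS.1)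
  · have := sum_DU (M := M) hK hN hMN (fun _ => 1)
    simp only [mul_one] at this
    rw [this, hD.2.2]

lemma wins_map {A : List ℕ → Bool} {K : ℕ} (hK : 1 ≤ K) {l : List ℕ} (h1 : ∀ x ∈ l, 1 ≤ x)
    (hinj : ∀ x ∈ l, ∀ y ∈ l, kap K x = kap K y → x = y) (hw : Wins A (l.map (kap K))) :
    Wins (fun h => A (h.map (kap K))) l := by
  obtain ⟨⟨k, hk⟩, e1, e2, e3⟩ := hw
  have hk' : k < l.length := by simpa using hk
  refine ⟨⟨k, hk'⟩, ?_, ?_, ?_⟩
  · simpa only [List.map_take] using e1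
  · intro j hj
    simpa only [List.map_take] using e2 j hj
  · intro x hx
    have h2 := e3 (kap K x) (List.mem_map_of_mem hx)
    simp only [List.get_eq_getElem, List.getElem_map] at h2 ⊢
    have hm : l[k] ∈ l := List.getElem_mem hk'
    by_contra hc
    have h3 : l[k] < x := by omega
    have h4 := kap_mono hK (h1 _ hm) h3.le
    exact h3.ne' (hinj x hx _ hm (le_antisymm h2 h4))

lemma W_Phi {Ω : Type*} [MeasurableSpace Ω] (μ : Measure Ω) [IsProbabilityMeasure μ]
    (A : Ω → List ℕ → Bool) {n M K : ℕ} (hK : 1 ≤ K) {S : Finset ℕ}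
    (hS : S ∈ (Icc 1 M).powersetCard n) :
    ∑ l ∈ Ord (Phi n K S), μ.real {ω | Wins (A ω) l} ≤
      ∑ l ∈ Ord S, (μ.real {ω | Wins (fun h => A ω (h.map (kap K))) l} +
        (if (l.map (kap K)).Nodup then (0 : ℝ) else 1)) := by
  rw [mem_powersetCard] at hS
  unfold Phi
  split_ifs with h
  · have hsub : Ord (S.image (kap K)) ⊆ (Ord S).image (List.map (kap K)) := by
      intro l hl
      rw [mem_Ord] at hl
      have hpre : ∀ y ∈ l, ∃ x ∈ S, kap K x = y := fun y hy =>
        mem_image.1 (hl.2 ▸ List.mem_toFinset.2 hy)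
      classical
      let g : ℕ → ℕ := fun y => if hy : ∃ x ∈ S, kap K x = y then hy.choose else 0
      have hg : ∀ y ∈ l, g y ∈ S ∧ kap K (g y) = y := by
        intro y hy
        have := hpre y hy
        simp only [g, dif_pos this]
        exact this.choose_spec
      have hmap : (l.map g).map (kap K) = l := by
        rw [List.map_map]
        conv_rhs => rw [← List.map_id l]
        exact List.map_congr_left fun y hy => (hg y hy).2
      rw [mem_image]
      refine ⟨l.map g, ?_, hmap⟩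
      rw [mem_Ord]
      refine ⟨List.Nodup.of_map (kap K) (by rw [hmap]; exact hl.1), ?_⟩
      ext x
      rw [List.mem_toFinset, List.mem_map]
      constructor
      · rintro ⟨y, hy, rfl⟩
        exact (hg y hy).1
      · intro hx
        have hy : kap K x ∈ l := by
          rw [← List.mem_toFinset, hl.2]; exact mem_image_of_mem _ hx
        exact ⟨kap K x, hy, h (hg _ hy).1 hx (hg _ hy).2⟩
    calc _ ≤ ∑ l ∈ (Ord S).image (List.map (kap K)), μ.real {ω | Wins (A ω) l} :=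
          sum_le_sum_of_subset_of_nonneg hsub fun _ _ _ => measureReal_nonneg
      _ ≤ ∑ l ∈ Ord S, μ.real {ω | Wins (A ω) (l.map (kap K))} :=
          sum_image_le_of_nonneg fun _ _ => measureReal_nonneg
      _ ≤ _ := by
          refine sum_le_sum fun l hl => ?_
          have hl' : ∀ x ∈ l, x ∈ S := fun x hx => (mem_Ord.1 hl).2 ▸ List.mem_toFinset.2 hx
          have h5 : μ.real {ω | Wins (A ω) (l.map (kap K))} ≤
              μ.real {ω | Wins (fun h => A ω (h.map (kap K))) l} :=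
            measureReal_mono fun ω hω => wins_map hK
              (fun x hx => (mem_Icc.1 (hS.1 (hl' x hx))).1)
              (fun x hx y hy e => h (hl' x hx) (hl' y hy) e) hω
          split_ifs <;> linarith
  · calc _ ≤ ∑ _l ∈ Ord (Icc 1 n), (1 : ℝ) := sum_le_sum fun _ _ => measureReal_le_one
      _ = ∑ _l ∈ Ord S, (1 : ℝ) := by
          rw [sum_const, sum_const, card_Ord, card_Ord, hS.2]; simp
      _ ≤ _ := by
          refine sum_le_sum fun l hl => ?_
          have h6 : ¬ (l.map (kap K)).Nodup := by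
            intro hc
            refine h fun x hx y hy e => ?_
            have hl2 := (mem_Ord.1 hl).2
            exact List.inj_on_of_nodup_map hc
              (List.mem_toFinset.1 (hl2 ▸ mem_coe.1 hx)) (List.mem_toFinset.1 (hl2 ▸ mem_coe.1 hy)) e
          rw [if_neg h6]
          have : 0 ≤ μ.real {ω | Wins (fun h => A ω (h.map (kap K))) l} := measureReal_nonneg
          linarith

theorem winProb_DU {Ω : Type*} [MeasurableSpace Ω] (μ : Measure Ω) [IsProbabilityMeasure μ]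
    (A : Ω → List ℕ → Bool) (hA : ∀ h, MeasurableSet {ω | A ω h = true})
    {n M K N : ℕ} (hn : 1 ≤ n) (hM : n ≤ M) (hK : 2 * n ≤ K) (hN : n ≤ N)
    (hMN : (Nat.log 2 M + 2) * K ≤ N) :
    winProb μ A n N (DU n M K) ≤
      Bv n 0 + 1 / ZZ n M + 4 * n ^ 2 / K * (1 + 1 / ZZ n M) := by
  have hK1 : 1 ≤ K := by omega
  have hZ := ZZ_pos hn hM
  have hf : (0 : ℝ) < (n.factorial : ℝ) := by exact_mod_cast n.factorial_pos
  have h1 := rand_bound_one μ (fun ω h => A ω (h.map (kap K))) (fun h => hA _) hn hM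
  have h2 := coll_bound hn hM hK
  unfold winProb
  rw [sum_DU hK1 hN hMN (fun T =>
    (∑ l ∈ T.toList.permutations.toFinset, μ.real {ω | Wins (A ω) l}) / (n.factorial : ℝ))]
  calc _ ≤ ∑ S ∈ (Icc 1 M).powersetCard n, DD n M S *
        ((∑ l ∈ S.toList.permutations.toFinset,
          (μ.real {ω | Wins (fun h => A ω (h.map (kap K))) l} +
            (if (l.map (kap K)).Nodup then (0 : ℝ) else 1))) / (n.factorial : ℝ)) := by
        refine sum_le_sum fun S hS => ?_
        refine mul_le_mul_of_nonneg_left ?_ ((isInstance_DD hn hM).1 S)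
        exact div_le_div_of_nonneg_right (W_Phi μ A hK1 hS) hf.le
    _ ≤ (Bv n 0 * ZZ n M + 1 + 4 * n ^ 2 / K * (ZZ n M + 1)) / ZZ n M := by
        rw [sum_DD]
        refine div_le_div_of_nonneg_right ?_ hZ.le
        simp only [mul_add, sum_add_distrib] at h2 ⊢
        linarith
    _ = _ := by field_simp

lemma ZZ_pow {n : ℕ} (hn : 1 ≤ n) : ∀ J : ℕ, (J : ℝ) / 2 ≤ ZZ n (n * 2 ^ J) := by
  intro J
  induction J with
  | zero => simpa using (ZZ_pos hn le_rfl).le
  | succ J ih =>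
    set m := n * 2 ^ J with hm
    have hnm : n ≤ m := Nat.le_mul_of_pos_right _ (by positivity)
    have hm' : (0 : ℝ) < m := by exact_mod_cast (show 0 < m by omega)
    have e : n * 2 ^ (J + 1) = 2 * m := by rw [hm]; ring
    have hsplit : Icc n (2 * m) = Icc n m ∪ Icc (m + 1) (2 * m) := by
      ext x; simp only [mem_union, mem_Icc]; omega
    have hdisj : Disjoint (Icc n m) (Icc (m + 1) (2 * m)) := by
      rw [disjoint_left]
      intro x h1 h2
      rw [mem_Icc] at h1 h2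
      omega
    have h3 : (1 : ℝ) / 2 ≤ ∑ x ∈ Icc (m + 1) (2 * m), (1 : ℝ) / x := by
      calc (1 : ℝ) / 2 = ∑ _x ∈ Icc (m + 1) (2 * m), (1 : ℝ) / (2 * m) := by
            rw [sum_const, Nat.card_Icc, nsmul_eq_mul, show 2 * m + 1 - (m + 1) = m by omega]
            field_simp
        _ ≤ _ := by
            refine sum_le_sum fun x hx => ?_
            rw [mem_Icc] at hx
            have h1 : (0 : ℝ) < x := by exact_mod_cast (show 0 < x by omega)
            have h2 : (x : ℝ) ≤ 2 * m := by exact_mod_cast hx.2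
            gcongr
    rw [e]
    unfold ZZ at ih ⊢
    rw [hsplit, sum_union hdisj]
    push_cast
    linarith

theorem uniform (n : ℕ) (hn : 1 ≤ n) (ε : ℝ) (hε : 0 < ε) (hε1 : ε ≤ 1) :
    ∃ (N : ℕ) (D : Finset ℕ → ℝ), n ≤ N ∧ (N : ℝ) ≤ 104 * n ^ 3 / ε ^ 2 ∧ IsInstance n N D ∧
      ∀ (Ω : Type*) [MeasurableSpace Ω] (μ : Measure Ω) [IsProbabilityMeasure μ]
        (A : Ω → List ℕ → Bool), (∀ h : List ℕ, MeasurableSet {ω | A ω h = true}) →
          winProb μ A n N D ≤ Bv n 0 + ε := by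
  have hn' : (1 : ℝ) ≤ n := by exact_mod_cast hn
  set J := ⌈4 / ε⌉₊ with hJ
  set K := ⌈12 * (n : ℝ) ^ 2 / ε⌉₊ with hK
  have hJ1 : 4 / ε ≤ J := Nat.le_ceil _
  have hJ2 : (J : ℝ) ≤ 4 / ε + 1 := (Nat.ceil_lt_add_one (by positivity)).le
  have hK1 : 12 * (n : ℝ) ^ 2 / ε ≤ K := Nat.le_ceil _
  have hK2 : (K : ℝ) ≤ 12 * (n : ℝ) ^ 2 / ε + 1 := (Nat.ceil_lt_add_one (by positivity)).le
  have hinv : 1 ≤ 1 / ε := by rw [le_div_iff₀ hε]; linarith
  have hn2 : (n : ℝ) ≤ n ^ 2 := by nlinarith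
  have hq : (n : ℝ) ^ 2 ≤ n ^ 2 / ε := by
    rw [le_div_iff₀ hε]; exact mul_le_of_le_one_right (by positivity) hε1
  have hq' : 12 * (n : ℝ) ^ 2 / ε = 12 * (n ^ 2 / ε) := by ring
  have hK3 : 2 * n ≤ K := by
    have : (2 * n : ℝ) ≤ K := by linarith
    exact_mod_cast this
  have hM : n ≤ n * 2 ^ J := Nat.le_mul_of_pos_right _ (by positivity)
  have hlog : Nat.log 2 (n * 2 ^ J) ≤ n + J := by
    refine (Nat.log_lt_of_lt_pow (by positivity) ?_).le
    rw [pow_add]
    exact Nat.mul_lt_mul_of_pos_right Nat.lt_two_pow_self (by positivity)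
  have hMN : (Nat.log 2 (n * 2 ^ J) + 2) * K ≤ (n + J + 2) * K :=
    Nat.mul_le_mul_right _ (by omega)
  have hN : n ≤ (n + J + 2) * K := by
    calc n ≤ n + J + 2 := by omega
      _ ≤ _ := Nat.le_mul_of_pos_right _ (by omega)
  refine ⟨(n + J + 2) * K, DU n (n * 2 ^ J) K, hN, ?_,
    isInstance_DU hn hM (by omega) hN hMN, fun Ω _ μ _ A hA => ?_⟩
  · push_cast
    have h1 : (n : ℝ) ≤ n / ε := by
      rw [le_div_iff₀ hε]; exact mul_le_of_le_one_right (by positivity) hε1
    have h2 : 1 / ε ≤ (n : ℝ) / ε := by gcongr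
    have h3 : (4 : ℝ) / ε = 4 * (1 / ε) := by ring
    have h4 : (n : ℝ) + J + 2 ≤ 8 * (n / ε) := by linarith
    have h5 : (K : ℝ) ≤ 13 * (n ^ 2 / ε) := by linarith
    calc _ ≤ 8 * (n / ε) * (13 * ((n : ℝ) ^ 2 / ε)) := by gcongr
      _ = _ := by field_simp; ring
  · refine (winProb_DU μ A hA hn hM hK3 hN hMN).trans ?_
    have hZ := ZZ_pow hn J
    have hZ2 : 2 / ε ≤ ZZ n (n * 2 ^ J) := by
      have : (4 : ℝ) / ε = 2 * (2 / ε) := by ring
      linarith
    have h1 : 1 / ZZ n (n * 2 ^ J) ≤ ε / 2 := by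
      rw [div_le_iff₀ hε] at hZ2
      rw [div_le_iff₀ (ZZ_pos hn hM)]
      linarith
    have hK0 : (0 : ℝ) < K := by exact_mod_cast (show 0 < K by omega)
    have h2 : 4 * (n : ℝ) ^ 2 / K ≤ ε / 3 := by
      rw [div_le_iff₀ hε] at hK1
      rw [div_le_iff₀ hK0]
      linarith
    have h3 : 4 * (n : ℝ) ^ 2 / K * (1 + 1 / ZZ n (n * 2 ^ J)) ≤ ε / 3 * (3 / 2) := by
      have := ZZ_pos hn hM
      gcongr
      linarith
    linarith

end Pool.Agent.Lib.MP_d38296_lc
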