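import Pool.Agent.Lib.MP_d38296_lc.Main
import Pool.Agent.Lib.MP_d38296_lc.UDefs

/-! The classical threshold rule is ordinal and wins with probability `Bv n 0`. -/

namespace Pool.Agent.Lib.MP_d38296_lc

open Finset

/-- the last entry of `l` is a maximal one -/
def IsRec (l : List ℕ) : Prop :=
  ∃ (k : ℕ) (hk : k < l.length), k + 1 = l.length ∧ ∀ (j : ℕ) (hj : j < l.length), l[j] ≤ l[k]

lemma isRec_append (h : List ℕ) (a : ℕ) : IsRec (h ++ [a]) ↔ mx h ≤ a := by
  constructor
  · rintro ⟨k, hk, h1, h2⟩
    have hke : k = h.length := by simpa using h1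
    subst hke
    rw [mx_le]
    intro x hx
    obtain ⟨j, hj, rfl⟩ := List.getElem_of_mem hx
    have := h2 j (by simp; omega)
    rw [List.getElem_append_left hj] at this
    simpa using this
  · intro hm
    refine ⟨h.length, by simp, by simp, fun j hj => ?_⟩
    have e : (h ++ [a])[h.length]'(by simp) = a := by simp
    rw [e]
    have hmem : (h ++ [a])[j] ∈ h ++ [a] := List.getElem_mem hj
    rcases List.mem_append.1 hmem with h1 | h1
    · exact (le_mx h1).trans hm
    · exact (List.mem_singleton.1 h1).le

lemma isRec_ofFn {k : ℕ} (u : Fin k → ℕ) :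
    IsRec (List.ofFn u) ↔ ∃ i : Fin k, i.val + 1 = k ∧ ∀ j, u j ≤ u i := by
  constructor
  · rintro ⟨i, hi, h1, h2⟩
    have hi' : i < k := by simpa using hi
    refine ⟨⟨i, hi'⟩, by simpa using h1, fun j => ?_⟩
    have := h2 j.val (by simp)
    simpa [List.getElem_ofFn] using this
  · rintro ⟨i, h1, h2⟩
    refine ⟨i.val, by simp, by simpa using h1, fun j hj => ?_⟩
    have hj' : j < k := by simpa using hj
    simpa [List.getElem_ofFn] using h2 ⟨j, hj'⟩

open Classical in
/-- the classical rule: stop on a record as soon as stopping is at least as good as going on -/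
noncomputable def rule (n : ℕ) (l : List ℕ) : Bool :=
  decide (IsRec l ∧ Bv n l.length ≤ (l.length : ℝ) / n)

lemma rule_ordinal (n : ℕ) : IsOrdinal (rule n) := by
  intro k u v huv
  unfold rule
  rw [decide_eq_decide, isRec_ofFn, isRec_ofFn]
  simp only [List.length_ofFn, huv]

lemma rule_append (n : ℕ) (h : List ℕ) (a : ℕ) :
    rule n (h ++ [a]) = true ↔
      mx h ≤ a ∧ Bv n (h.length + 1) ≤ ((h.length : ℝ) + 1) / n := by
  unfold rule
  simp only [decide_eq_true_eq, isRec_append]
  simp

lemma notStopped_append_iff (A : List ℕ → Bool) (h : List ℕ) (a : ℕ) :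
    NotStopped A (h ++ [a]) ↔ NotStopped A h ∧ A (h ++ [a]) = false := by
  constructor
  · intro hn
    refine ⟨notStopped_append hn, ?_⟩
    have := hn h.length (by simp)
    rwa [List.take_of_length_le (by simp)] at this
  · rintro ⟨h1, h2⟩ j hj
    have hj' : j < h.length + 1 := by simpa using hj
    by_cases hlt : j < h.length
    · rw [List.take_append_of_le_length (by omega)]
      exact h1 j hlt
    · rw [List.take_of_length_le (by simp; omega)]
      exact h2

lemma wins_append_iff (A : List ℕ → Bool) (h : List ℕ) (a : ℕ) :
    Wins A (h ++ [a]) ↔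
      (Wins A h ∧ a ≤ mx h) ∨ (NotStopped A h ∧ A (h ++ [a]) = true ∧ mx h ≤ a) := by
  constructor
  · intro hw
    rcases wins_append hw with h1 | h1
    · exact Or.inl h1
    · refine Or.inr ⟨h1.1, ?_, h1.2⟩
      by_contra hc
      exact wins_not_notStopped hw ((notStopped_append_iff A h a).2 ⟨h1.1, by simpa using hc⟩)
  · rintro (⟨⟨⟨k, hk⟩, h1, h2, h3⟩, h4⟩ | ⟨h1, h2, h3⟩)
    · simp only [List.get_eq_getElem] at h1 h2 h3
      refine ⟨⟨k, by simp; omega⟩, ?_, ?_, ?_⟩
      · simp only
        rwa [List.take_append_of_le_length (by omega)]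
      · intro j hj
        simp only at hj
        rw [List.take_append_of_le_length (by omega)]
        exact h2 j hj
      · intro x hx
        simp only [List.get_eq_getElem]
        rw [List.getElem_append_left hk]
        rcases List.mem_append.1 hx with h5 | h5
        · exact h3 x h5
        · rw [List.mem_singleton.1 h5]
          exact h4.trans (mx_le.2 h3)
    · refine ⟨⟨h.length, by simp⟩, ?_, ?_, ?_⟩
      · simp only
        rwa [List.take_of_length_le (by simp)]
      · intro j hj
        simp only at hj
        rw [List.take_append_of_le_length (by omega)]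
        exact h1 j hj
      · intro x hx
        have e : (h ++ [a]).get ⟨h.length, by simp⟩ = a := by simp
        rw [e]
        rcases List.mem_append.1 hx with h5 | h5
        · exact (le_mx h5).trans h3
        · exact (List.mem_singleton.1 h5).le

/-- the orderings of a finite set -/
noncomputable def Ord (S : Finset ℕ) : Finset (List ℕ) := S.toList.permutations.toFinset

lemma mem_Ord {S : Finset ℕ} {l : List ℕ} : l ∈ Ord S ↔ l.Nodup ∧ l.toFinset = S := by
  simp only [Ord, List.mem_toFinset, List.mem_permutations]
  constructor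
  · intro hp
    exact ⟨hp.nodup_iff.2 S.nodup_toList, by rw [List.toFinset_eq_of_perm _ _ hp]; simp⟩
  · rintro ⟨h2, h4⟩
    rw [List.perm_ext_iff_of_nodup h2 S.nodup_toList]
    intro a
    rw [← h4]; simp

lemma length_of_mem_Ord {S : Finset ℕ} {l : List ℕ} (hl : l ∈ Ord S) : l.length = S.card := by
  rw [mem_Ord] at hl
  rw [← hl.2, List.toFinset_card_of_nodup hl.1]

lemma card_Ord (S : Finset ℕ) : (Ord S).card = S.card.factorial := by
  rw [Ord, List.toFinset_card_of_nodup (List.nodup_permutations _ S.nodup_toList),
    List.length_permutations, length_toList]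

lemma sum_Ord_succ {S : Finset ℕ} (hS : S.Nonempty) (f : List ℕ → ℝ) :
    ∑ l ∈ Ord S, f l = ∑ a ∈ S, ∑ h ∈ Ord (S.erase a), f (h ++ [a]) := by
  rw [sum_sigma']
  symm
  refine sum_bij (fun p _ => p.2 ++ [p.1]) ?_ ?_ ?_ (fun _ _ => rfl)
  · rintro ⟨a, h⟩ hp
    simp only [mem_sigma, mem_Ord] at hp
    obtain ⟨ha, h1, h2⟩ := hp
    have hah : a ∉ h := by
      intro hc
      have : a ∈ S.erase a := h2 ▸ List.mem_toFinset.2 hc
      simp at this
    rw [mem_Ord]
    refine ⟨?_, ?_⟩
    · rw [List.nodup_append]
      refine ⟨h1, by simp, ?_⟩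
      intro x hx y hy
      rw [List.mem_singleton.1 hy]
      rintro rfl
      exact hah hx
    · rw [List.toFinset_append, h2]
      ext x
      by_cases hx : x = a <;> simp [hx, ha]
  · rintro ⟨a, h⟩ _ ⟨b, g⟩ _ he
    simp only at he
    obtain ⟨h1, h2⟩ := List.append_inj' he rfl
    have : a = b := by simpa using h2
    subst this
    subst h1
    rfl
  · intro l hl
    have hlen := length_of_mem_Ord hl
    have hne : l ≠ [] := by
      rintro rfl
      have := hS.card_pos
      simp at hlen
      omega
    obtain ⟨h, a, rfl⟩ : ∃ h a, l = h ++ [a] := ⟨l.dropLast, l.getLast hne,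
      (List.dropLast_append_getLast hne).symm⟩
    rw [mem_Ord] at hl
    obtain ⟨h1, h2⟩ := hl
    rw [List.nodup_append] at h1
    have hah : a ∉ h := fun hc => h1.2.2 a hc a (by simp) rfl
    refine ⟨⟨a, h⟩, ?_, rfl⟩
    simp only [mem_sigma, mem_Ord]
    refine ⟨by rw [← h2]; simp, h1.1, ?_⟩
    rw [← h2]
    ext x
    by_cases hx : x = a
    · simp [hx, hah]
    · simp [hx]

open Classical in
lemma rule_count {n : ℕ} : ∀ k, k ≤ n → ∃ α β : ℝ,
    (∀ S : Finset ℕ, S.card = k →
      ∑ l ∈ Ord S, (if Wins (rule n) l then (1 : ℝ) else 0) = α ∧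
      ∑ l ∈ Ord S, (if NotStopped (rule n) l then (1 : ℝ) else 0) = β) ∧
    α * k / n + β * Bv n k = k.factorial * Bv n 0 := by
  intro k
  induction k with
  | zero =>
    intro _
    refine ⟨0, 1, fun S hS => ?_, by simp⟩
    rw [card_eq_zero.1 hS]
    have : Ord ∅ = {[]} := by
      ext l
      simp only [mem_Ord, mem_singleton, List.toFinset_eq_empty_iff]
      exact ⟨fun h => h.2, fun h => by simp [h]⟩
    rw [this]
    simp [Wins, NotStopped]
  | succ k ih =>
    intro hk
    obtain ⟨α, β, h1, h2⟩ := ih (by omega)
    set t : Prop := Bv n (k + 1) ≤ ((k : ℝ) + 1) / n with ht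
    refine ⟨k * α + (if t then β else 0), k * β + (if t then 0 else β), fun S hS => ?_, ?_⟩
    · have hne : S.Nonempty := card_pos.1 (by omega)
      set top := S.max' hne with htop
      have htm : top ∈ S := S.max'_mem hne
      have hce : ∀ a ∈ S, (S.erase a).card = k := fun a ha => by
        rw [card_erase_of_mem ha, hS]; rfl
      have low : ∀ a ∈ S.erase top, ∀ h ∈ Ord (S.erase a), a < mx h := by
        intro a ha h hh
        rw [mem_erase] at ha
        have h3 : top ∈ h := by
          rw [← List.mem_toFinset, (mem_Ord.1 hh).2, mem_erase]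
          exact ⟨fun hc => ha.1 hc.symm, htm⟩
        exact (lt_of_le_of_ne (S.le_max' a ha.2) ha.1).trans_le (le_mx h3)
      have high : ∀ h ∈ Ord (S.erase top), ∀ x ∈ h, x < top := by
        intro h hh x hx
        have h3 : x ∈ S.erase top := (mem_Ord.1 hh).2 ▸ List.mem_toFinset.2 hx
        rw [mem_erase] at h3
        exact lt_of_le_of_ne (S.le_max' x h3.2) h3.1
      have hck : ((S.erase top).card : ℝ) = k := by rw [hce top htm]
      constructor
      · rw [sum_Ord_succ hne, ← sum_erase_add _ _ htm]
        congr 1
        · rw [← hck, ← nsmul_eq_mul, ← sum_const]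
          refine sum_congr rfl fun a ha => ?_
          rw [← (h1 _ (hce a (mem_of_mem_erase ha))).1]
          refine sum_congr rfl fun h hh => ?_
          have h3 := low a ha h hh
          have : Wins (rule n) (h ++ [a]) ↔ Wins (rule n) h := by
            rw [wins_append_iff]
            constructor
            · rintro (h4 | h4)
              · exact h4.1
              · exact absurd h4.2.2 (by omega)
            · exact fun h4 => Or.inl ⟨h4, h3.le⟩
          simp only [this]
        · have key : ∀ h ∈ Ord (S.erase top),
              (Wins (rule n) (h ++ [top]) ↔ NotStopped (rule n) h ∧ t) := by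
            intro h hh
            have hl : h.length = k := by rw [length_of_mem_Ord hh, hce top htm]
            have h3 : mx h ≤ top := mx_le.2 fun x hx => (high h hh x hx).le
            rw [wins_append_iff, rule_append, hl]
            constructor
            · rintro (⟨h4, h5⟩ | h4)
              · exfalso
                obtain ⟨j, -⟩ := h4
                have hne' : h ≠ [] := by
                  rintro rfl
                  exact absurd j.2 (by simp)
                have := high h hh _ (mx_mem hne')
                omega
              · exact ⟨h4.1, h4.2.1.2⟩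
            · exact fun h4 => Or.inr ⟨h4.1, ⟨h3, h4.2⟩, h3⟩
          by_cases htt : t
          · rw [if_pos htt, ← (h1 _ (hce top htm)).2]
            refine sum_congr rfl fun h hh => ?_
            simp only [key h hh, htt, and_true]
          · rw [if_neg htt]
            refine sum_eq_zero fun h hh => ?_
            simp only [key h hh, htt, and_false, if_false]
      · rw [sum_Ord_succ hne, ← sum_erase_add _ _ htm]
        congr 1
        · rw [← hck, ← nsmul_eq_mul, ← sum_const]
          refine sum_congr rfl fun a ha => ?_
          rw [← (h1 _ (hce a (mem_of_mem_erase ha))).2]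
          refine sum_congr rfl fun h hh => ?_
          have h3 := low a ha h hh
          have : NotStopped (rule n) (h ++ [a]) ↔ NotStopped (rule n) h := by
            rw [notStopped_append_iff]
            refine ⟨fun h4 => h4.1, fun h4 => ⟨h4, ?_⟩⟩
            by_contra hc
            have := ((rule_append n h a).1 (by simpa using hc)).1
            omega
          simp only [this]
        · have key : ∀ h ∈ Ord (S.erase top),
              (NotStopped (rule n) (h ++ [top]) ↔ NotStopped (rule n) h ∧ ¬ t) := by
            intro h hh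
            have hl : h.length = k := by rw [length_of_mem_Ord hh, hce top htm]
            have h3 : mx h ≤ top := mx_le.2 fun x hx => (high h hh x hx).le
            rw [notStopped_append_iff, ← Bool.not_eq_true, rule_append, hl]
            simp only [h3, true_and, ht]
          by_cases htt : t
          · rw [if_pos htt]
            refine sum_eq_zero fun h hh => ?_
            simp only [key h hh, htt, not_true, and_false, if_false]
          · rw [if_neg htt, ← (h1 _ (hce top htm)).2]
            refine sum_congr rfl fun h hh => ?_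
            simp only [key h hh, htt, not_false_iff, and_true]
    · have hr := Bv_rec (n := n) (k := k) (by omega)
      have hk1 : (0 : ℝ) < (k : ℝ) + 1 := by positivity
      rw [eq_div_iff hk1.ne'] at hr
      rw [Nat.factorial_succ]
      push_cast
      rw [mul_assoc, ← h2]
      by_cases htt : t
      · rw [if_pos htt, if_pos htt]
        rw [max_eq_left htt] at hr
        have e : (k + 1 : ℝ) * (α * k / n + β * Bv n k) =
            α * k * (k + 1) / n + β * (Bv n k * (k + 1)) := by ring
        rw [e, hr]; ring
      · rw [if_neg htt, if_neg htt]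
        rw [max_eq_right (le_of_not_ge htt)] at hr
        have e : (k + 1 : ℝ) * (α * k / n + β * Bv n k) =
            α * k * (k + 1) / n + β * (Bv n k * (k + 1)) := by ring
        rw [e, hr]; ring

open MeasureTheory

open Classical in
lemma winProb_rule {n N : ℕ} (hn : 1 ≤ n) {D : Finset ℕ → ℝ} (hD : IsInstance n N D) :
    winProb (Measure.dirac ()) (fun _ : Unit => rule n) n N D = Bv n 0 := by
  obtain ⟨α, β, h1, h2⟩ := rule_count (n := n) n le_rfl
  have hn' : (0 : ℝ) < n := by exact_mod_cast hn
  have hf : (0 : ℝ) < (n.factorial : ℝ) := by exact_mod_cast n.factorial_pos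
  rw [Bv_self, mul_zero, add_zero, mul_div_assoc, div_self hn'.ne', mul_one] at h2
  have e : ∀ l, (Measure.dirac ()).real {_ω : Unit | Wins (rule n) l} =
      if Wins (rule n) l then (1 : ℝ) else 0 := by
    intro l
    by_cases hw : Wins (rule n) l <;> simp [hw]
  unfold winProb
  simp_rw [e]
  calc _ = ∑ S ∈ (Icc 1 N).powersetCard n, D S * Bv n 0 := by
        refine sum_congr rfl fun S hS => ?_
        have := (h1 S (mem_powersetCard.1 hS).2).1
        rw [Ord] at this
        rw [this, h2]
        field_simp
    _ = _ := by rw [← sum_mul, hD.2.2, one_mul]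

lemma Bv_zero {n : ℕ} (hn : 1 ≤ n) : Bv n 0 = max (1 / (n : ℝ)) (Bv n 1) := by
  rw [Bv_rec (n := n) (k := 0) hn]
  simp

lemma Bv_zero_le {n : ℕ} (hn : 1 ≤ n) : Bv n 0 ≤ 1 / Real.exp 1 + 1 / n := by
  rw [Bv_zero hn]
  refine max_le ?_ (Bv_inv (n := n) (n - 1) 1 (by omega) le_rfl).1
  have : (0 : ℝ) ≤ 1 / Real.exp 1 := by positivity
  linarith

end Pool.Agent.Lib.MP_d38296_lc
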